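import Pool.Agent.WE45.Enc

/-! Word equations with few variable occurrences (MP_fc7ad9_lc). Helper module:
counts, weights, visible letters, cuts. -/

namespace WO45

open WE45

variable {A X : Type*}

/-- weight of a word -/
def wt (w : A → ℕ) (u : List A) : ℕ := (u.map w).sum

theorem wt_nil (w : A → ℕ) : wt w [] = 0 := rfl

theorem wt_cons (w : A → ℕ) (a : A) (u : List A) : wt w (a :: u) = w a + wt w u := by
  simp [wt]

theorem wt_append (w : A → ℕ) (u v : List A) : wt w (u ++ v) = wt w u + wt w v := by
  simp [wt]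

/-- number of constants -/
def cN : List (A ⊕ X) → ℕ
  | [] => 0
  | .inl _ :: s => cN s + 1
  | .inr _ :: s => cN s

/-- number of variable occurrences -/
def vN : List (A ⊕ X) → ℕ
  | [] => 0
  | .inl _ :: s => vN s
  | .inr _ :: s => vN s + 1

/-- total weight of the constants -/
def cw (w : A → ℕ) : List (A ⊕ X) → ℕ
  | [] => 0
  | .inl a :: s => w a + cw w s
  | .inr _ :: s => cw w s

theorem cN_append : ∀ s t : List (A ⊕ X), cN (s ++ t) = cN s + cN t
  | [], t => by simp [cN]
  | .inl a :: s, t => by simp only [List.cons_append, cN, cN_append s t]; omega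
  | .inr x :: s, t => by simp only [List.cons_append, cN, cN_append s t]

theorem vN_append : ∀ s t : List (A ⊕ X), vN (s ++ t) = vN s + vN t
  | [], t => by simp [vN]
  | .inl a :: s, t => by simp only [List.cons_append, vN, vN_append s t]
  | .inr x :: s, t => by simp only [List.cons_append, vN, vN_append s t]; omega

theorem cw_append (w : A → ℕ) : ∀ s t : List (A ⊕ X), cw w (s ++ t) = cw w s + cw w t
  | [], t => by simp [cw]
  | .inl a :: s, t => by simp only [List.cons_append, cw, cw_append w s t]; omega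
  | .inr x :: s, t => by simp only [List.cons_append, cw, cw_append w s t]

theorem cN_map (u : List A) : cN (u.map (Sum.inl : A → A ⊕ X)) = u.length := by
  induction u with
  | nil => rfl
  | cons a u ih => simp only [List.map_cons, cN, ih, List.length_cons]

theorem vN_map (u : List A) : vN (u.map (Sum.inl : A → A ⊕ X)) = 0 := by
  induction u with
  | nil => rfl
  | cons a u ih => simp only [List.map_cons, vN, ih]

theorem cw_map (w : A → ℕ) (u : List A) : cw w (u.map (Sum.inl : A → A ⊕ X)) = wt w u := by
  induction u with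
  | nil => rfl
  | cons a u ih => simp only [List.map_cons, cw, ih, wt_cons]

theorem sb_map_inl (σ : X → List A) (u : List A) :
    sb σ (u.map (Sum.inl : A → A ⊕ X)) = u := by
  induction u with
  | nil => rfl
  | cons a u ih => rw [List.map_cons, sb_inl, ih]

theorem le_cw (w : A → ℕ) {a : A} : ∀ {s : List (A ⊕ X)}, .inl a ∈ s → w a ≤ cw w s
  | .inl b :: s, h => by
      rcases List.mem_cons.1 h with h | h
      · rw [Sum.inl.injEq] at h
        rw [h]; simp only [cw]; omega
      · have := le_cw w h
        simp only [cw]; omega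
  | .inr x :: s, h => by
      rcases List.mem_cons.1 h with h | h
      · cases h
      · exact le_cw w (s := s) h

/-- `HasSol w L R n`: a solution of weight at most `n` -/
def HasSol (w : A → ℕ) (L R : List (A ⊕ X)) (n : ℕ) : Prop :=
  ∃ σ : X → List A, sb σ L = sb σ R ∧ wt w (sb σ L) ≤ n

theorem filter_sb (p : A → Bool) (σ : X → List A) : ∀ s : List (A ⊕ X),
    (∀ a, .inl a ∈ s → p a = true) →
      (sb σ s).filter p = sb (fun x => (σ x).filter p) s
  | [], _ => rfl
  | .inl a :: s, h => by
      rw [sb_inl, sb_inl, List.filter_cons_of_pos (h a (by simp)),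
        filter_sb p σ s (fun b hb => h b (List.mem_cons_of_mem _ hb))]
  | .inr x :: s, h => by
      rw [sb_inr, sb_inr, List.filter_append,
        filter_sb p σ s (fun b hb => h b (List.mem_cons_of_mem _ hb))]

/-- a solvable equation has a solution that uses only letters of the equation -/
theorem visible {L R : List (A ⊕ X)} (h : ∃ σ : X → List A, sb σ L = sb σ R) :
    ∃ σ : X → List A, sb σ L = sb σ R ∧ ∀ x, ∀ a ∈ σ x, .inl a ∈ L ++ R := by
  classical
  obtain ⟨σ, hσ⟩ := h
  refine ⟨fun x => (σ x).filter (fun a => decide ((.inl a : A ⊕ X) ∈ L ++ R)), ?_, ?_⟩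
  · rw [← filter_sb _ σ L, ← filter_sb _ σ R, hσ]
    · intro a ha
      exact decide_eq_true (List.mem_append_right _ ha)
    · intro a ha
      exact decide_eq_true (List.mem_append_left _ ha)
  · intro x a ha
    exact of_decide_eq_true (List.mem_filter.1 ha).2

/-- adjacent constants -/
def aps : List (A ⊕ X) → List (A × A)
  | [] => []
  | .inr _ :: s => aps s
  | [.inl _] => []
  | .inl _ :: .inr _ :: s => aps s
  | .inl a :: .inl b :: s => (a, b) :: aps (.inl b :: s)

theorem cN_le_aps : ∀ s : List (A ⊕ X), cN s ≤ (aps s).length + vN s + 1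
  | [] => by simp [cN]
  | .inr _ :: s => by
      have := cN_le_aps s
      simp only [cN, aps, vN]; omega
  | [.inl _] => by simp [cN, aps, vN]
  | .inl _ :: .inr _ :: s => by
      have := cN_le_aps s
      simp only [cN, aps, vN]; omega
  | .inl a :: .inl b :: s => by
      have := cN_le_aps (.inl b :: s)
      simp only [cN, aps, vN, List.length_cons] at this ⊢; omega

theorem aps_cons (u : A ⊕ X) (s : List (A ⊕ X)) : (aps s).Sublist (aps (u :: s)) := by
  cases u with
  | inr x => simp only [aps]; exact List.Sublist.refl _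
  | inl a =>
    match s with
    | [] => simp only [aps]; exact List.Sublist.refl _
    | .inr x :: s => simp only [aps]; exact List.Sublist.refl _
    | .inl b :: s =>
      show (aps (.inl b :: s)).Sublist ((a, b) :: aps (.inl b :: s))
      exact List.sublist_cons_self _ _

theorem aps_append (t : List (A ⊕ X)) (s : List (A ⊕ X)) :
    (aps s).Sublist (aps (t ++ s)) := by
  induction t with
  | nil => exact List.Sublist.refl _
  | cons u t ih => exact ih.trans (aps_cons u (t ++ s))

/-- a cut separates half of the pairs -/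
theorem exists_cut [DecidableEq A] (P : List (A × A)) (hP : ∀ p ∈ P, p.1 ≠ p.2)
    (S : Finset A) : ∃ Γ : A → Bool,
    (P.map (fun p => if p.1 ∈ S ∧ p.2 ∈ S then 1 else 0)).sum ≤
      2 * (P.map (fun p => if p.1 ∈ S ∧ p.2 ∈ S ∧ Γ p.1 ≠ Γ p.2 then 1 else 0)).sum := by
  induction S using Finset.induction_on with
  | empty => exact ⟨fun _ => true, by simp⟩
  | insert z S hz ih =>
    obtain ⟨Γ, hΓ⟩ := ih
    have key : ∀ t : Bool,
        (P.map (fun p => if p.1 ∈ insert z S ∧ p.2 ∈ insert z S ∧
          Function.update Γ z t p.1 ≠ Function.update Γ z t p.2 then 1 else 0)).sum =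
        (P.map (fun p => if p.1 ∈ S ∧ p.2 ∈ S ∧ Γ p.1 ≠ Γ p.2 then 1 else 0)).sum +
        (P.map (fun p => if (p.1 = z ∧ p.2 ∈ S ∧ t ≠ Γ p.2) ∨
          (p.2 = z ∧ p.1 ∈ S ∧ t ≠ Γ p.1) then 1 else 0)).sum := by
      intro t
      rw [← List.sum_map_add]
      congr 1
      refine List.map_congr_left ?_
      intro p hp
      have hne := hP p hp
      by_cases h1 : p.1 = z
      · have h2 : p.2 ≠ z := fun h => hne (h1.trans h.symm)
        have h3 : p.1 ∉ S := fun h => hz (h1 ▸ h)
        by_cases h4 : p.2 ∈ S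
        · simp [h1, h2, h4, hz, Function.update_of_ne h2]
        · simp [h1, h2, h4, hz]
      · by_cases h2 : p.2 = z
        · by_cases h4 : p.1 ∈ S
          · simp [h1, h2, h4, hz, Function.update_of_ne h1, eq_comm]
          · simp [h1, h2, h4, hz]
        · simp [h1, h2, Function.update_of_ne h1, Function.update_of_ne h2]
    have key2 : (P.map (fun p => if p.1 ∈ insert z S ∧ p.2 ∈ insert z S then 1 else 0)).sum =
        (P.map (fun p => if p.1 ∈ S ∧ p.2 ∈ S then 1 else 0)).sum +
        ((P.map (fun p => if (p.1 = z ∧ p.2 ∈ S ∧ true ≠ Γ p.2) ∨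
          (p.2 = z ∧ p.1 ∈ S ∧ true ≠ Γ p.1) then 1 else 0)).sum +
        (P.map (fun p => if (p.1 = z ∧ p.2 ∈ S ∧ false ≠ Γ p.2) ∨
          (p.2 = z ∧ p.1 ∈ S ∧ false ≠ Γ p.1) then 1 else 0)).sum) := by
      rw [← List.sum_map_add, ← List.sum_map_add]
      congr 1
      refine List.map_congr_left ?_
      intro p hp
      have hne := hP p hp
      by_cases h1 : p.1 = z
      · have h2 : p.2 ≠ z := fun h => hne (h1.trans h.symm)
        by_cases h4 : p.2 ∈ S
        · cases hΓ2 : Γ p.2 <;> simp [h1, h2, h4, hz, hΓ2]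
        · simp [h1, h2, h4, hz]
      · by_cases h2 : p.2 = z
        · by_cases h4 : p.1 ∈ S
          · cases hΓ2 : Γ p.1 <;> simp [h1, h2, h4, hz, hΓ2]
          · simp [h1, h2, h4, hz]
        · simp [h1, h2]
    have kt := key true
    have kf := key false
    generalize (P.map (fun p => if (p.1 = z ∧ p.2 ∈ S ∧ true ≠ Γ p.2) ∨
          (p.2 = z ∧ p.1 ∈ S ∧ true ≠ Γ p.1) then 1 else 0)).sum = at1 at key2 kt
    generalize (P.map (fun p => if (p.1 = z ∧ p.2 ∈ S ∧ false ≠ Γ p.2) ∨
          (p.2 = z ∧ p.1 ∈ S ∧ false ≠ Γ p.1) then 1 else 0)).sum = af1 at key2 kf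
    rcases le_total at1 af1 with h | h
    · refine ⟨Function.update Γ z false, ?_⟩
      rw [kf, key2]
      omega
    · refine ⟨Function.update Γ z true, ?_⟩
      rw [kt, key2]
      omega

/-- a partition catches a quarter of the pairs -/
theorem exists_part (P : List (A × A)) (hP : ∀ p ∈ P, p.1 ≠ p.2) :
    ∃ Γ : A → Bool, P.length ≤ 4 * P.countP (fun p => Γ p.1 && !Γ p.2) := by
  classical
  obtain ⟨Γ, hΓ⟩ := exists_cut P hP (P.map Prod.fst ++ P.map Prod.snd).toFinset
  have h1 : (P.map (fun p => if p.1 ∈ (P.map Prod.fst ++ P.map Prod.snd).toFinset ∧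
      p.2 ∈ (P.map Prod.fst ++ P.map Prod.snd).toFinset then 1 else 0)).sum = P.length := by
    have : P.map (fun p => if p.1 ∈ (P.map Prod.fst ++ P.map Prod.snd).toFinset ∧
      p.2 ∈ (P.map Prod.fst ++ P.map Prod.snd).toFinset then 1 else 0) =
      P.map (fun _ => 1) := by
      refine List.map_congr_left ?_
      intro p hp
      rw [if_pos]
      rw [List.mem_toFinset, List.mem_toFinset]
      exact ⟨List.mem_append_left _ (List.mem_map_of_mem hp),
        List.mem_append_right _ (List.mem_map_of_mem hp)⟩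
    rw [this]
    simp
  have h2 : (P.map (fun p => if p.1 ∈ (P.map Prod.fst ++ P.map Prod.snd).toFinset ∧
      p.2 ∈ (P.map Prod.fst ++ P.map Prod.snd).toFinset ∧ Γ p.1 ≠ Γ p.2
        then 1 else 0)).sum ≤
      P.countP (fun p => Γ p.1 && !Γ p.2) +
        P.countP (fun p => (!Γ p.1) && !(!Γ p.2)) := by
    generalize (P.map Prod.fst ++ P.map Prod.snd).toFinset = S
    clear hΓ h1 hP
    induction P with
    | nil => simp
    | cons p P ih =>
      rw [List.map_cons, List.sum_cons, List.countP_cons, List.countP_cons]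
      have h3 : (if p.1 ∈ S ∧ p.2 ∈ S ∧ Γ p.1 ≠ Γ p.2 then 1 else 0) ≤
          (if (Γ p.1 && !Γ p.2) = true then 1 else 0) +
            (if ((!Γ p.1) && !(!Γ p.2)) = true then 1 else 0) := by
        cases Γ p.1 <;> cases Γ p.2 <;> simp
        · split_ifs <;> simp
        · split_ifs <;> simp
      omega
  rw [h1] at hΓ
  rcases le_total (P.countP (fun p => Γ p.1 && !Γ p.2))
    (P.countP (fun p => (!Γ p.1) && !(!Γ p.2))) with h | h
  · exact ⟨fun a => !Γ a, by show P.length ≤ 4 * P.countP (fun p => (!Γ p.1) && !(!Γ p.2)); omega⟩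
  · exact ⟨Γ, by omega⟩

end WO45
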