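import Mathlib

/-! Word equations with few variable occurrences (MP_fc7ad9_lc). Helper module:
small solutions of linear systems (Dickson's lemma). -/

namespace WO45

/-- minimal nonzero elements of a set of natural vectors are bounded (Dickson) -/
theorem min_bound {K : Type*} [Finite K] (S : Set (K → ℕ)) :
    ∃ M : ℕ, ∀ z ∈ S, z ≠ 0 → ∃ h ∈ S, h ≠ 0 ∧ h ≤ z ∧ ∀ k, h k ≤ M := by
  classical
  haveI := Fintype.ofFinite K
  have hfin : {z | Minimal (fun z => z ∈ S ∧ z ≠ 0) z}.Finite :=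
    WellQuasiOrderedLE.finite_of_isAntichain
      (setOfPred_minimal_antichain (fun z => z ∈ S ∧ z ≠ 0))
  obtain ⟨M, hM⟩ : ∃ M, ∀ z, Minimal (fun z => z ∈ S ∧ z ≠ 0) z → ∀ k, z k ≤ M := by
    have h1 : (⋃ k, (fun z : K → ℕ => z k) ''
        {z | Minimal (fun z => z ∈ S ∧ z ≠ 0) z}).Finite :=
      Set.finite_iUnion (fun k => hfin.image _)
    obtain ⟨M, hM⟩ := h1.bddAbove
    exact ⟨M, fun z hz k => hM (Set.mem_iUnion.2 ⟨k, z, hz, rfl⟩)⟩
  refine ⟨M, fun z hz hz0 => ?_⟩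
  obtain ⟨h, hle, hmin⟩ := exists_minimal_le_of_wellFoundedLT
    (fun z => z ∈ S ∧ z ≠ 0) z ⟨hz, hz0⟩
  exact ⟨h, hmin.prop.1, hmin.prop.2, hle, hM h hmin⟩

theorem reduce {I J : Type*} [Fintype I] [Fintype J] (S : Set (I ⊕ J → ℕ))
    (hadd : ∀ z ∈ S, ∀ h ∈ S, z + h ∈ S)
    (hsub : ∀ z ∈ S, ∀ h ∈ S, h ≤ z → z - h ∈ S) :
    ∃ M : ℕ, ∀ z ∈ S, ∃ z' ∈ S, (∀ j, z' (Sum.inr j) = z (Sum.inr j)) ∧
      (∀ i, z' (Sum.inl i) ≤ z (Sum.inl i)) ∧
      ∀ i, z' (Sum.inl i) ≤ M * ∑ j, z (Sum.inr j) := by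
  obtain ⟨M, hM⟩ := min_bound S
  refine ⟨M, ?_⟩
  have key : ∀ n : ℕ, ∀ z ∈ S, ∑ k, z k = n → ∃ z' ∈ S,
      (∀ j, z' (Sum.inr j) = z (Sum.inr j)) ∧
      (∀ i, z' (Sum.inl i) ≤ z (Sum.inl i)) ∧
      ∀ i, z' (Sum.inl i) ≤ M * ∑ j, z (Sum.inr j) := by
    intro n
    induction n using Nat.strong_induction_on with
    | _ n ih =>
      intro z hz hn
      by_cases h0 : z = 0
      · subst h0
        exact ⟨0, hz, fun _ => rfl, fun _ => le_rfl, fun _ => Nat.zero_le _⟩
      · obtain ⟨h, hS, hne, hle, hb⟩ := hM z hz h0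
        have hzh := hsub z hz h hS hle
        obtain ⟨k0, hk0⟩ : ∃ k, h k ≠ 0 := by
          by_contra hcon
          push Not at hcon
          exact hne (funext hcon)
        have hlt : ∑ k, (z - h) k < n := by
          rw [← hn]
          refine Finset.sum_lt_sum (fun k _ => Nat.sub_le _ _) ⟨k0, Finset.mem_univ _, ?_⟩
          have h1 : h k0 ≤ z k0 := hle k0
          show z k0 - h k0 < z k0
          omega
        obtain ⟨z'', h1, h2, h3, h4⟩ := ih _ hlt (z - h) hzh rfl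
        by_cases hJ : ∀ j, h (Sum.inr j) = 0
        · refine ⟨z'', h1, ?_, ?_, ?_⟩
          · intro j
            rw [h2 j]
            show z (Sum.inr j) - h (Sum.inr j) = _
            rw [hJ j]; rfl
          · intro i
            exact (h3 i).trans (Nat.sub_le _ _)
          · intro i
            refine (h4 i).trans (Nat.mul_le_mul_left _ (Finset.sum_le_sum ?_))
            intro j _
            exact Nat.sub_le _ _
        · push Not at hJ
          obtain ⟨j0, hj0⟩ := hJ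
          refine ⟨z'' + h, hadd _ h1 _ hS, ?_, ?_, ?_⟩
          · intro j
            show z'' (Sum.inr j) + h (Sum.inr j) = _
            rw [h2 j]
            show z (Sum.inr j) - h (Sum.inr j) + h (Sum.inr j) = _
            exact Nat.sub_add_cancel (hle _)
          · intro i
            show z'' (Sum.inl i) + h (Sum.inl i) ≤ _
            have h5 := h3 i
            have h6 : h (Sum.inl i) ≤ z (Sum.inl i) := hle (Sum.inl i)
            have h7 : (z - h) (Sum.inl i) = z (Sum.inl i) - h (Sum.inl i) := rfl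
            omega
          · intro i
            show z'' (Sum.inl i) + h (Sum.inl i) ≤ _
            have h5 : ∑ j, (z - h) (Sum.inr j) + 1 ≤ ∑ j, z (Sum.inr j) := by
              have h6 : ∑ j, (z - h) (Sum.inr j) < ∑ j, z (Sum.inr j) := by
                refine Finset.sum_lt_sum (fun k _ => Nat.sub_le _ _)
                  ⟨j0, Finset.mem_univ _, ?_⟩
                have h1 : h (Sum.inr j0) ≤ z (Sum.inr j0) := hle (Sum.inr j0)
                show z (Sum.inr j0) - h (Sum.inr j0) < z (Sum.inr j0)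
                omega
              omega
            calc z'' (Sum.inl i) + h (Sum.inl i)
                ≤ M * ∑ j, (z - h) (Sum.inr j) + M := Nat.add_le_add (h4 i) (hb _)
              _ = M * (∑ j, (z - h) (Sum.inr j) + 1) := by ring
              _ ≤ M * ∑ j, z (Sum.inr j) := Nat.mul_le_mul_left _ h5
  intro z hz
  exact key _ z hz rfl

/-- value of a linear form with natural coefficients -/
def ev {I : Type*} [Fintype I] (θ : I → ℕ) (F : (I → ℕ) × ℕ) : ℕ :=
  ∑ i, F.1 i * θ i + F.2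

/-- the cone of a finite set of pairs of coefficient vectors -/
def cone {I : Type*} [Fintype I] (B : ℕ)
    (J : Finset ((I → Fin (B + 1)) × (I → Fin (B + 1)))) :
    Set (I ⊕ (((I → Fin (B + 1)) × (I → Fin (B + 1))) ⊕
      ((I → Fin (B + 1)) × (I → Fin (B + 1)))) → ℕ) :=
  {z | ∀ j, (j ∈ J → ∑ i, (j.1 i : ℕ) * z (Sum.inl i) + z (Sum.inr (Sum.inl j)) =
      ∑ i, (j.2 i : ℕ) * z (Sum.inl i) + z (Sum.inr (Sum.inr j))) ∧
    (j ∉ J → z (Sum.inr (Sum.inl j)) = 0 ∧ z (Sum.inr (Sum.inr j)) = 0)}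

theorem cone_add {I : Type*} [Fintype I] (B : ℕ)
    (J : Finset ((I → Fin (B + 1)) × (I → Fin (B + 1)))) :
    ∀ z ∈ cone B J, ∀ h ∈ cone B J, z + h ∈ cone B J := by
  intro z hz h hh j
  refine ⟨fun hj => ?_, fun hj => ?_⟩
  · have h1 := (hz j).1 hj
    have h2 := (hh j).1 hj
    simp only [Pi.add_apply, mul_add, Finset.sum_add_distrib]
    omega
  · have h1 := (hz j).2 hj
    have h2 := (hh j).2 hj
    simp only [Pi.add_apply]
    omega

theorem cone_sub {I : Type*} [Fintype I] (B : ℕ)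
    (J : Finset ((I → Fin (B + 1)) × (I → Fin (B + 1)))) :
    ∀ z ∈ cone B J, ∀ h ∈ cone B J, h ≤ z → z - h ∈ cone B J := by
  intro z hz h hh hle j
  refine ⟨fun hj => ?_, fun hj => ?_⟩
  · have h1 := (hz j).1 hj
    have h2 := (hh j).1 hj
    have e : ∀ f : I → Fin (B + 1), ∑ i, (f i : ℕ) * (z - h) (Sum.inl i) +
        ∑ i, (f i : ℕ) * h (Sum.inl i) = ∑ i, (f i : ℕ) * z (Sum.inl i) := by
      intro f
      rw [← Finset.sum_add_distrib]
      refine Finset.sum_congr rfl ?_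
      intro i _
      rw [← mul_add]
      congr 1
      exact Nat.sub_add_cancel (hle _)
    have e1 := e j.1
    have e2 := e j.2
    have h3 : h (Sum.inr (Sum.inl j)) ≤ z (Sum.inr (Sum.inl j)) := hle _
    have h4 : h (Sum.inr (Sum.inr j)) ≤ z (Sum.inr (Sum.inr j)) := hle _
    have h5 : (z - h) (Sum.inr (Sum.inl j)) = z (Sum.inr (Sum.inl j)) -
      h (Sum.inr (Sum.inl j)) := rfl
    have h6 : (z - h) (Sum.inr (Sum.inr j)) = z (Sum.inr (Sum.inr j)) -
      h (Sum.inr (Sum.inr j)) := rfl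
    omega
  · have h1 := (hz j).2 hj
    have h5 : (z - h) (Sum.inr (Sum.inl j)) = z (Sum.inr (Sum.inl j)) -
      h (Sum.inr (Sum.inl j)) := rfl
    have h6 : (z - h) (Sum.inr (Sum.inr j)) = z (Sum.inr (Sum.inr j)) -
      h (Sum.inr (Sum.inr j)) := rfl
    omega

/-- Small solutions: equalities between linear forms with bounded coefficients can be kept
while the parameters become at most `κ` times the constant terms. -/
theorem dickson_bound (I : Type*) [Fintype I] (B : ℕ) : ∃ κ : ℕ, ∀ (θ : I → ℕ) (m : ℕ)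
    (P : Set (((I → ℕ) × ℕ) × ((I → ℕ) × ℕ))),
    (∀ p ∈ P, (∀ i, p.1.1 i ≤ B) ∧ (∀ i, p.2.1 i ≤ B) ∧ p.1.2 ≤ m ∧ p.2.2 ≤ m ∧
      ev θ p.1 = ev θ p.2) →
    ∃ θ' : I → ℕ, (∀ i, θ' i ≤ θ i) ∧ (∀ p ∈ P, ev θ' p.1 = ev θ' p.2) ∧
      ∀ i, θ' i ≤ κ * m := by
  classical
  choose M hM using fun J : Finset ((I → Fin (B + 1)) × (I → Fin (B + 1))) =>
    reduce (cone B J) (cone_add B J) (cone_sub B J)
  refine ⟨Finset.univ.sup M *
    Fintype.card ((I → Fin (B + 1)) × (I → Fin (B + 1))), ?_⟩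
  intro θ m P hP
  set J : Finset ((I → Fin (B + 1)) × (I → Fin (B + 1))) :=
    Finset.univ.filter (fun j => ∃ p ∈ P, (∀ i, p.1.1 i = j.1 i) ∧
      (∀ i, p.2.1 i = j.2 i)) with hJ
  let z : I ⊕ (((I → Fin (B + 1)) × (I → Fin (B + 1))) ⊕
      ((I → Fin (B + 1)) × (I → Fin (B + 1)))) → ℕ :=
    Sum.elim θ (Sum.elim
      (fun j => if j ∈ J then (∑ i, (j.2 i : ℕ) * θ i) - ∑ i, (j.1 i : ℕ) * θ i else 0)
      (fun j => if j ∈ J then (∑ i, (j.1 i : ℕ) * θ i) - ∑ i, (j.2 i : ℕ) * θ i else 0))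
  have hz : z ∈ cone B J := by
    intro j
    refine ⟨fun hj => ?_, fun hj => ?_⟩
    · show ∑ i, (j.1 i : ℕ) * θ i + (if j ∈ J then _ else 0) =
        ∑ i, (j.2 i : ℕ) * θ i + (if j ∈ J then _ else 0)
      rw [if_pos hj, if_pos hj]
      omega
    · show (if j ∈ J then _ else 0) = 0 ∧ (if j ∈ J then _ else 0) = 0
      rw [if_neg hj, if_neg hj]
      exact ⟨rfl, rfl⟩
  obtain ⟨z', h1, h2, h3, h4⟩ := hM J z hz
  have hpj : ∀ p ∈ P, ∃ j ∈ J, (∀ i, p.1.1 i = j.1 i) ∧ (∀ i, p.2.1 i = j.2 i) := by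
    intro p hp
    have h5 := hP p hp
    refine ⟨(fun i => ⟨p.1.1 i, Nat.lt_succ_of_le (h5.1 i)⟩,
      fun i => ⟨p.2.1 i, Nat.lt_succ_of_le (h5.2.1 i)⟩), ?_, fun _ => rfl, fun _ => rfl⟩
    rw [hJ, Finset.mem_filter]
    exact ⟨Finset.mem_univ _, p, hp, fun _ => rfl, fun _ => rfl⟩
  refine ⟨fun i => z' (Sum.inl i), fun i => h3 i, ?_, ?_⟩
  · intro p hp
    obtain ⟨j, hj, e1, e2⟩ := hpj p hp
    have h6 := (h1 j).1 hj
    rw [h2, h2] at h6
    have h7 : z (Sum.inr (Sum.inl j)) =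
        (∑ i, (j.2 i : ℕ) * θ i) - ∑ i, (j.1 i : ℕ) * θ i := by
      show (if j ∈ J then _ else 0) = _
      rw [if_pos hj]
    have h8 : z (Sum.inr (Sum.inr j)) =
        (∑ i, (j.1 i : ℕ) * θ i) - ∑ i, (j.2 i : ℕ) * θ i := by
      show (if j ∈ J then _ else 0) = _
      rw [if_pos hj]
    rw [h7, h8] at h6
    have h9 := (hP p hp).2.2.2.2
    simp only [ev, e1, e2] at h9 ⊢
    omega
  · intro i
    have h5 : ∑ j, z (Sum.inr j) ≤
        Fintype.card ((I → Fin (B + 1)) × (I → Fin (B + 1))) * m := by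
      rw [Fintype.sum_sum_type, ← Finset.sum_add_distrib]
      have h6 : ∀ j ∈ (Finset.univ : Finset ((I → Fin (B + 1)) × (I → Fin (B + 1)))),
          z (Sum.inr (Sum.inl j)) + z (Sum.inr (Sum.inr j)) ≤ m := by
        intro j _
        by_cases hj : j ∈ J
        · have h7 : z (Sum.inr (Sum.inl j)) =
              (∑ i, (j.2 i : ℕ) * θ i) - ∑ i, (j.1 i : ℕ) * θ i := by
            show (if j ∈ J then _ else 0) = _
            rw [if_pos hj]
          have h8 : z (Sum.inr (Sum.inr j)) =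
              (∑ i, (j.1 i : ℕ) * θ i) - ∑ i, (j.2 i : ℕ) * θ i := by
            show (if j ∈ J then _ else 0) = _
            rw [if_pos hj]
          have hj' := hj
          rw [hJ, Finset.mem_filter] at hj'
          obtain ⟨-, p, hp, e1, e2⟩ := hj'
          have h9 := (hP p hp).2.2
          have h10 := h9.2.2
          simp only [ev, e1, e2] at h10
          rw [h7, h8]
          omega
        · have h7 : z (Sum.inr (Sum.inl j)) = 0 := by
            show (if j ∈ J then _ else 0) = _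
            rw [if_neg hj]
          have h8 : z (Sum.inr (Sum.inr j)) = 0 := by
            show (if j ∈ J then _ else 0) = _
            rw [if_neg hj]
          omega
      refine (Finset.sum_le_sum h6).trans ?_
      rw [Finset.sum_const, smul_eq_mul, Finset.card_univ]
    calc z' (Sum.inl i) ≤ M J * ∑ j, z (Sum.inr j) := h4 i
      _ ≤ Finset.univ.sup M *
          (Fintype.card ((I → Fin (B + 1)) × (I → Fin (B + 1))) * m) :=
        Nat.mul_le_mul (Finset.le_sup (f := M) (Finset.mem_univ J)) h5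
      _ = _ := by ring

end WO45
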