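import Pool.Agent.WO45.Basic
import Pool.Agent.WO45.Dick

/-! Word equations with few variable occurrences (MP_fc7ad9_lc). Helper module:
the block compression step. -/

namespace WO45

open WE45

variable {A X : Type*}

section Rle

variable [DecidableEq A]

/-- add a run in front of a list of runs -/
def cm (a : A) (e : ℕ) : List (A × ℕ) → List (A × ℕ)
  | [] => [(a, e)]
  | t :: T => if a = t.1 then (a, e + t.2) :: T else (a, e) :: t :: T

/-- run length encoding -/
def rle : List A → List (A × ℕ)
  | [] => []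
  | a :: u => cm a 1 (rle u)

/-- decoding of runs -/
def dec {A : Type*} (T : List (A × ℕ)) : List A :=
  T.flatMap (fun t => List.replicate t.2 t.1)

omit [DecidableEq A] in
theorem dec_nil : dec ([] : List (A × ℕ)) = [] := rfl

omit [DecidableEq A] in
theorem dec_cons (t : A × ℕ) (T : List (A × ℕ)) :
    dec (t :: T) = List.replicate t.2 t.1 ++ dec T := by
  simp [dec]

omit [DecidableEq A] in
theorem dec_append (S T : List (A × ℕ)) : dec (S ++ T) = dec S ++ dec T := by
  simp [dec]

theorem dec_cm (a : A) (e : ℕ) (T : List (A × ℕ)) :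
    dec (cm a e T) = List.replicate e a ++ dec T := by
  cases T with
  | nil => simp [cm, dec]
  | cons t T =>
    show dec (if a = t.1 then (a, e + t.2) :: T else (a, e) :: t :: T) = _
    split_ifs with h
    · rw [dec_cons, dec_cons, ← List.append_assoc]
      show List.replicate (e + t.2) a ++ _ = _
      rw [List.replicate_add, h]
    · rw [dec_cons]

theorem dec_rle (u : List A) : dec (rle u) = u := by
  induction u with
  | nil => rfl
  | cons a u ih =>
    show dec (cm a 1 (rle u)) = _
    rw [dec_cm, ih]; rfl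

theorem cm_cm (a : A) (e f : ℕ) (T : List (A × ℕ)) :
    cm a e (cm a f T) = cm a (e + f) T := by
  cases T with
  | nil => simp [cm]
  | cons t T =>
    by_cases h : a = t.1
    · simp only [cm, if_pos h, if_true, Nat.add_assoc]
    · simp only [cm, if_neg h, if_true]

theorem rle_replicate (a : A) (u : List A) (e : ℕ) :
    rle (List.replicate (e + 1) a ++ u) = cm a (e + 1) (rle u) := by
  induction e with
  | zero => rfl
  | succ e ih =>
    rw [List.replicate_succ, List.cons_append]
    show cm a 1 (rle _) = _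
    rw [ih, cm_cm, Nat.add_comm]

/-- reduced lists of runs -/
def Rd {A : Type*} (T : List (A × ℕ)) : Prop :=
  (∀ t ∈ T, 1 ≤ t.2) ∧ T.IsChain (fun s t => s.1 ≠ t.1)

theorem rd_cm {a : A} {e : ℕ} {T : List (A × ℕ)} (he : 1 ≤ e) (hT : Rd T) :
    Rd (cm a e T) := by
  cases T with
  | nil =>
    refine ⟨?_, by simp [cm]⟩
    intro t ht
    simp only [cm, List.mem_singleton] at ht
    rw [ht]; exact he
  | cons t T =>
    by_cases h : a = t.1
    · simp only [cm, if_pos h]
      refine ⟨?_, ?_⟩
      · intro s hs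
        rcases List.mem_cons.1 hs with h1 | h1
        · rw [h1]; show 1 ≤ e + t.2; omega
        · exact hT.1 s (List.mem_cons_of_mem _ h1)
      · have h2 := hT.2
        cases T with
        | nil => exact List.IsChain.singleton _
        | cons r T =>
          rw [List.isChain_cons_cons] at h2 ⊢
          exact ⟨by show a ≠ r.1; rw [h]; exact h2.1, h2.2⟩
    · simp only [cm, if_neg h]
      refine ⟨?_, ?_⟩
      · intro s hs
        rcases List.mem_cons.1 hs with h1 | h1
        · rw [h1]; exact he
        · exact hT.1 s h1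
      · rw [List.isChain_cons_cons]
        exact ⟨h, hT.2⟩

theorem rd_rle (u : List A) : Rd (rle u) := by
  induction u with
  | nil => exact ⟨by simp [rle], List.IsChain.nil⟩
  | cons a u ih => exact rd_cm le_rfl ih

theorem head_cm (a : A) (e : ℕ) (T : List (A × ℕ)) :
    ∃ e' T', cm a e T = (a, e') :: T' := by
  cases T with
  | nil => exact ⟨e, [], rfl⟩
  | cons t T =>
    by_cases h : a = t.1
    · exact ⟨e + t.2, T, by simp only [cm, if_pos h]⟩
    · exact ⟨e, t :: T, by simp only [cm, if_neg h]⟩

theorem rle_dec_append (b : A) (s : ℕ) (u : List A) : ∀ T : List (A × ℕ),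
    Rd (T ++ [(b, s)]) → rle (dec (T ++ [(b, s)]) ++ u) = T ++ cm b s (rle u)
  | [], h => by
      have h1 : 1 ≤ s := h.1 (b, s) (by simp)
      obtain ⟨s', rfl⟩ : ∃ s', s = s' + 1 := ⟨s - 1, by omega⟩
      rw [List.nil_append, dec_cons, dec_nil, List.append_nil, List.nil_append]
      exact rle_replicate b u s'
  | t :: T, h => by
      have h1 : 1 ≤ t.2 := h.1 t (by simp)
      have hT : Rd (T ++ [(b, s)]) :=
        ⟨fun r hr => h.1 r (by rw [List.cons_append]; exact List.mem_cons_of_mem _ hr),
          (by have := h.2; rw [List.cons_append] at this; exact this.tail)⟩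
      have ih := rle_dec_append b s u T hT
      obtain ⟨p, hp⟩ : ∃ p, t.2 = p + 1 := ⟨t.2 - 1, by omega⟩
      rw [List.cons_append, dec_cons, List.append_assoc, hp, rle_replicate, ih, ← hp]
      have hch : ∀ r ∈ (T ++ cm b s (rle u)).head?, t.1 ≠ r.1 := by
        intro r hr
        cases T with
        | nil =>
          obtain ⟨e', T', hc⟩ := head_cm b s (rle u)
          rw [List.nil_append, hc] at hr
          simp only [List.head?_cons, Option.mem_def, Option.some.injEq] at hr
          rw [← hr]
          have h2 := h.2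
          rw [List.cons_append, List.nil_append, List.isChain_cons_cons] at h2
          exact h2.1
        | cons c T =>
          rw [List.cons_append] at hr
          simp only [List.head?_cons, Option.mem_def, Option.some.injEq] at hr
          rw [← hr]
          have h2 := h.2
          rw [List.cons_append, List.cons_append, List.isChain_cons_cons] at h2
          exact h2.1
      cases hc : T ++ cm b s (rle u) with
      | nil => rw [List.cons_append, hc]; rfl
      | cons r S =>
        rw [hc] at hch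
        have h3 := hch r (by simp)
        rw [List.cons_append, hc]
        show (if t.1 = r.1 then (t.1, t.2 + r.2) :: S else (t.1, t.2) :: r :: S) = _
        rw [if_neg h3]

end Rle

/-- weight of a run -/
def w1 (w : A → ℕ) : A × ℕ → ℕ := fun t => t.2 * w t.1

theorem wt_replicate (w : A → ℕ) (a : A) (e : ℕ) :
    wt w (List.replicate e a) = e * w a := by
  simp [wt]

theorem wt_dec (w : A → ℕ) (T : List (A × ℕ)) : wt w (dec T) = wt (w1 w) T := by
  induction T with
  | nil => rfl
  | cons t T ih => rw [dec_cons, wt_append, wt_cons, ih, wt_replicate]; rfl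

/-- shape of the run length encoding of the image of a variable -/
inductive Sh (A : Type*)
  | nil
  | one (a : A)
  | two (a b : A)

/-- list of runs of a given shape -/
def shp (sh : Sh A) (p s : ℕ) (mid : List (A × ℕ)) : List (A × ℕ) :=
  match sh with
  | .nil => []
  | .one a => [(a, p)]
  | .two a b => (a, p) :: (mid ++ [(b, s)])

theorem exists_shape (T : List (A × ℕ)) : ∃ (sh : Sh A) (p s : ℕ) (mid : List (A × ℕ)),
    T = shp sh p s mid := by
  rcases T with _ | ⟨t, T⟩
  · exact ⟨.nil, 0, 0, [], rfl⟩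
  · rcases List.eq_nil_or_concat T with rfl | ⟨mid, r, rfl⟩
    · exact ⟨.one t.1, t.2, 0, [], rfl⟩
    · exact ⟨.two t.1 r.1, t.2, r.2, mid, by simp [shp]⟩

section Merge

variable [DecidableEq A] {I : Type*}

/-- add a symbolic run in front -/
def cmS (a : A) (F : (I → ℕ) × ℕ) :
    List ((A × ((I → ℕ) × ℕ)) ⊕ X) → List ((A × ((I → ℕ) × ℕ)) ⊕ X)
  | [] => [.inl (a, F)]
  | .inr x :: S => .inl (a, F) :: .inr x :: S
  | .inl t :: S => if a = t.1 then .inl (a, F + t.2) :: S else .inl (a, F) :: .inl t :: S

theorem cN_cmS (a : A) (F : (I → ℕ) × ℕ) (S : List ((A × ((I → ℕ) × ℕ)) ⊕ X)) :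
    cN (cmS a F S) ≤ cN S + 1 := by
  match S with
  | [] => exact le_rfl
  | .inr x :: S => exact le_rfl
  | .inl t :: S =>
    simp only [cmS]
    split_ifs
    · show cN S + 1 ≤ cN S + 1 + 1; omega
    · exact le_rfl

theorem vN_cmS (a : A) (F : (I → ℕ) × ℕ) (S : List ((A × ((I → ℕ) × ℕ)) ⊕ X)) :
    vN (cmS a F S) = vN S := by
  match S with
  | [] => rfl
  | .inr x :: S => rfl
  | .inl t :: S =>
    simp only [cmS]
    split_ifs <;> rfl

theorem mem_cmS {a : A} {F : (I → ℕ) × ℕ} {S : List ((A × ((I → ℕ) × ℕ)) ⊕ X)}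
    {t : A × ((I → ℕ) × ℕ)} (h : .inl t ∈ cmS a F S) :
    .inl t ∈ S ∨ t = (a, F) ∨ ∃ G, .inl (a, G) ∈ S ∧ t = (a, F + G) := by
  match S with
  | [] =>
    simp only [cmS, List.mem_singleton, Sum.inl.injEq] at h
    exact Or.inr (Or.inl h)
  | .inr x :: S =>
    simp only [cmS, List.mem_cons, Sum.inl.injEq, reduceCtorEq, false_or] at h
    rcases h with h | h
    · exact Or.inr (Or.inl h)
    · exact Or.inl (List.mem_cons_of_mem _ h)
  | .inl r :: S =>
    simp only [cmS] at h
    split_ifs at h with hr
    · rcases List.mem_cons.1 h with h | h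
      · right; right
        rw [Sum.inl.injEq] at h
        refine ⟨r.2, ?_, h⟩
        rw [hr]; simp
      · exact Or.inl (List.mem_cons_of_mem _ h)
    · rcases List.mem_cons.1 h with h | h
      · right; left
        rw [Sum.inl.injEq] at h
        exact h
      · exact Or.inl h

/-- evaluation of the symbolic runs -/
def evl {A X I : Type*} [Fintype I] (θ : I → ℕ) (S : List ((A × ((I → ℕ) × ℕ)) ⊕ X)) :
    List ((A × ℕ) ⊕ X) :=
  S.map (Sum.map (fun t => (t.1, ev θ t.2)) id)

theorem ev_add [Fintype I] (θ : I → ℕ) (F G : (I → ℕ) × ℕ) :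
    ev θ (F + G) = ev θ F + ev θ G := by
  simp only [ev, Prod.fst_add, Prod.snd_add, Pi.add_apply, add_mul, Finset.sum_add_distrib]
  ring

theorem ev_const [Fintype I] (θ : I → ℕ) (c : ℕ) : ev θ (0, c) = c := by
  simp [ev]

theorem ev_single [Fintype I] [DecidableEq I] (θ : I → ℕ) (i : I) :
    ev θ (Pi.single i 1, 0) = θ i := by
  simp only [ev, add_zero]
  rw [Finset.sum_eq_single i]
  · simp
  · intro j _ hj
    simp [hj]
  · intro h; exact absurd (Finset.mem_univ _) h

omit [DecidableEq A] in
theorem evl_inl [Fintype I] (θ : I → ℕ) (t : A × ((I → ℕ) × ℕ))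
    (S : List ((A × ((I → ℕ) × ℕ)) ⊕ X)) :
    evl θ (.inl t :: S) = .inl (t.1, ev θ t.2) :: evl θ S := rfl

omit [DecidableEq A] in
theorem evl_inr [Fintype I] (θ : I → ℕ) (x : X)
    (S : List ((A × ((I → ℕ) × ℕ)) ⊕ X)) :
    evl θ (.inr x :: S) = .inr x :: evl θ S := rfl

/-- the list is empty or starts with a run -/
def NV (S : List ((A × ((I → ℕ) × ℕ)) ⊕ X)) : Prop := ∀ u ∈ S.head?, ∃ t, u = .inl t

theorem nv_cmS (a : A) (F : (I → ℕ) × ℕ) (S : List ((A × ((I → ℕ) × ℕ)) ⊕ X)) :
    NV (cmS a F S) := by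
  intro u hu
  match S with
  | [] =>
    simp only [cmS, List.head?_cons, Option.mem_def, Option.some.injEq] at hu
    exact ⟨_, hu.symm⟩
  | .inr x :: S =>
    simp only [cmS, List.head?_cons, Option.mem_def, Option.some.injEq] at hu
    exact ⟨_, hu.symm⟩
  | .inl t :: S =>
    simp only [cmS] at hu
    split_ifs at hu
    · simp only [List.head?_cons, Option.mem_def, Option.some.injEq] at hu
      exact ⟨_, hu.symm⟩
    · simp only [List.head?_cons, Option.mem_def, Option.some.injEq] at hu
      exact ⟨_, hu.symm⟩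

theorem evl_cmS [Fintype I] (θ : I → ℕ) (μ : X → List (A × ℕ)) (a : A)
    (F : (I → ℕ) × ℕ) (S : List ((A × ((I → ℕ) × ℕ)) ⊕ X)) (hS : NV S) :
    sb μ (evl θ (cmS a F S)) = cm a (ev θ F) (sb μ (evl θ S)) := by
  match S with
  | [] =>
    show sb μ [.inl (a, ev θ F)] = _
    rw [sb_inl]; rfl
  | .inr x :: S =>
    obtain ⟨t, ht⟩ := hS (.inr x) (by simp)
    cases ht
  | .inl t :: S =>
    simp only [cmS]
    rw [evl_inl, sb_inl]
    split_ifs with h
    · rw [evl_inl, sb_inl, ev_add]
      show _ = (if a = t.1 then (a, ev θ F + ev θ t.2) :: sb μ (evl θ S) else _)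
      rw [if_pos h]
    · rw [evl_inl, sb_inl, evl_inl, sb_inl]
      show _ = (if a = t.1 then _ else (a, ev θ F) :: (t.1, ev θ t.2) :: sb μ (evl θ S))
      rw [if_neg h]

theorem cw_cmS [Fintype I] (w : A → ℕ) (θ : I → ℕ) (a : A)
    (F : (I → ℕ) × ℕ) (S : List ((A × ((I → ℕ) × ℕ)) ⊕ X)) :
    cw (w1 w) (evl θ (cmS a F S)) = ev θ F * w a + cw (w1 w) (evl θ S) := by
  match S with
  | [] => rfl
  | .inr x :: S => rfl
  | .inl t :: S =>
    simp only [cmS]
    rw [evl_inl]
    split_ifs with h
    · rw [evl_inl]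
      show ev θ (F + t.2) * w a + _ = _ + (ev θ t.2 * w t.1 + _)
      rw [ev_add, ← h]
      ring
    · rw [evl_inl, evl_inl]
      show ev θ F * w a + _ = _
      rfl

/-- adjacent runs have different letters -/
def AD {A β X : Type*} (S : List ((A × β) ⊕ X)) : Prop := ∀ p ∈ aps S, p.1.1 ≠ p.2.1

theorem ad_cmS (a : A) (F : (I → ℕ) × ℕ) (S : List ((A × ((I → ℕ) × ℕ)) ⊕ X))
    (hS : AD S) : AD (cmS a F S) := by
  match S with
  | [] => intro p hp; simp [cmS, aps] at hp
  | .inr x :: S => exact hS
  | .inl t :: S =>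
    simp only [cmS]
    split_ifs with h
    · match S with
      | [] => intro p hp; simp [aps] at hp
      | .inr x :: S => exact hS
      | .inl r :: S =>
        intro p hp
        simp only [aps, List.mem_cons] at hp
        rcases hp with rfl | hp
        · have := hS (t, r) (by simp [aps])
          rw [← h] at this
          exact this
        · exact hS p (by simp only [aps, List.mem_cons]; exact Or.inr hp)
    · intro p hp
      simp only [aps, List.mem_cons] at hp
      rcases hp with rfl | hp
      · exact h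
      · exact hS p hp

omit [DecidableEq A] in
theorem aps_evl [Fintype I] (θ : I → ℕ) : ∀ (S : List ((A × ((I → ℕ) × ℕ)) ⊕ X)),
    AD S → AD (evl θ S)
  | [], _ => by intro p hp; simp [evl, aps] at hp
  | .inr x :: S, h => aps_evl θ S h
  | [.inl t], _ => by intro p hp; simp [evl, aps] at hp
  | .inl t :: .inr x :: S, h => aps_evl θ S h
  | .inl t :: .inl r :: S, h => by
      have ih := aps_evl θ (.inl r :: S)
        (fun p hp => h p (by simp only [aps, List.mem_cons]; exact Or.inr hp))
      intro p hp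
      rw [evl_inl, evl_inl] at hp
      simp only [aps, List.mem_cons] at hp
      rcases hp with rfl | hp
      · exact h (t, r) (by simp [aps])
      · exact ih p (by rw [evl_inl]; exact hp)

omit [DecidableEq A] in
theorem relabel [Fintype I] (θ θ' : I → ℕ) (μ : X → List (A × ℕ)) (ρ : A × ℕ → A × ℕ) :
    ∀ S : List ((A × ((I → ℕ) × ℕ)) ⊕ X),
      (∀ t, .inl t ∈ S → ρ (t.1, ev θ t.2) = (t.1, ev θ' t.2)) →
        (sb μ (evl θ S)).map ρ = sb (fun x => (μ x).map ρ) (evl θ' S)
  | [], _ => rfl
  | .inl t :: S, h => by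
      rw [evl_inl, evl_inl, sb_inl, sb_inl, List.map_cons, h t (by simp),
        relabel θ θ' μ ρ S (fun r hr => h r (List.mem_cons_of_mem _ hr))]
  | .inr x :: S, h => by
      rw [evl_inr, evl_inr, sb_inr, sb_inr, List.map_append,
        relabel θ θ' μ ρ S (fun r hr => h r (List.mem_cons_of_mem _ hr))]

end Merge

section Mg

variable [DecidableEq A] [DecidableEq X]

/-- the symbolic block equation -/
def mg (sh : X → Sh A) : List (A ⊕ X) → List ((A × ((X × Bool → ℕ) × ℕ)) ⊕ X)
  | [] => []
  | .inl a :: L => cmS a (0, 1) (mg sh L)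
  | .inr x :: L =>
    match sh x with
    | .nil => mg sh L
    | .one a => cmS a (Pi.single (x, false) 1, 0) (mg sh L)
    | .two a b => .inl (a, (Pi.single (x, false) 1, 0)) :: .inr x ::
        cmS b (Pi.single (x, true) 1, 0) (mg sh L)

theorem mg_inl (sh : X → Sh A) (a : A) (L : List (A ⊕ X)) :
    mg sh (.inl a :: L) = cmS a (0, 1) (mg sh L) := rfl

theorem mg_nil {sh : X → Sh A} {x : X} (h : sh x = .nil) (L : List (A ⊕ X)) :
    mg sh (.inr x :: L) = mg sh L := by
  simp only [mg, h]

theorem mg_one {sh : X → Sh A} {x : X} {a : A} (h : sh x = .one a) (L : List (A ⊕ X)) :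
    mg sh (.inr x :: L) = cmS a (Pi.single (x, false) 1, 0) (mg sh L) := by
  simp only [mg, h]

theorem mg_two {sh : X → Sh A} {x : X} {a b : A} (h : sh x = .two a b)
    (L : List (A ⊕ X)) :
    mg sh (.inr x :: L) = .inl (a, (Pi.single (x, false) 1, 0)) :: .inr x ::
        cmS b (Pi.single (x, true) 1, 0) (mg sh L) := by
  simp only [mg, h]

theorem nv_mg (sh : X → Sh A) : ∀ L : List (A ⊕ X), NV (mg sh L)
  | [] => by intro u hu; simp [mg] at hu
  | .inl a :: L => nv_cmS _ _ _
  | .inr x :: L => by
      cases h : sh x with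
      | nil => rw [mg_nil h]; exact nv_mg sh L
      | one a => rw [mg_one h]; exact nv_cmS _ _ _
      | two a b =>
        rw [mg_two h]
        intro u hu
        simp only [List.head?_cons, Option.mem_def, Option.some.injEq] at hu
        exact ⟨_, hu.symm⟩

theorem mg_eval [Fintype X] (σ : X → List A) (sh : X → Sh A) (mid : X → List (A × ℕ))
    (θ : X × Bool → ℕ)
    (h : ∀ x, rle (σ x) = shp (sh x) (θ (x, false)) (θ (x, true)) (mid x)) :
    ∀ L : List (A ⊕ X), sb mid (evl θ (mg sh L)) = rle (sb σ L)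
  | [] => rfl
  | .inl a :: L => by
      rw [mg_inl, evl_cmS _ _ _ _ _ (nv_mg sh L), mg_eval σ sh mid θ h L, ev_const, sb_inl]
      rfl
  | .inr x :: L => by
      have hx := h x
      have hd := dec_rle (σ x)
      have hr := rd_rle (σ x)
      cases hsh : sh x with
      | nil =>
        rw [hsh] at hx
        rw [hx] at hd
        rw [mg_nil hsh, sb_inr, ← hd, mg_eval σ sh mid θ h L]
        rfl
      | one a =>
        rw [hsh] at hx
        rw [hx] at hd hr
        have hp : 1 ≤ θ (x, false) := hr.1 (a, θ (x, false)) (by simp [shp])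
        obtain ⟨p, hp'⟩ : ∃ p, θ (x, false) = p + 1 := ⟨θ (x, false) - 1, by omega⟩
        rw [mg_one hsh, evl_cmS _ _ _ _ _ (nv_mg sh L), mg_eval σ sh mid θ h L, ev_single,
          sb_inr, ← hd]
        show _ = rle (dec [(a, θ (x, false))] ++ sb σ L)
        rw [dec_cons, dec_nil, List.append_nil]
        show _ = rle (List.replicate (θ (x, false)) a ++ sb σ L)
        rw [hp', rle_replicate]
      | two a b =>
        rw [hsh] at hx
        rw [hx] at hd hr
        have h1 := rle_dec_append b (θ (x, true)) (sb σ L) ((a, θ (x, false)) :: mid x) hr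
        rw [mg_two hsh, evl_inl, evl_inr, sb_inl, sb_inr,
          evl_cmS _ _ _ _ _ (nv_mg sh L), mg_eval σ sh mid θ h L, ev_single, ev_single,
          sb_inr, ← hd]
        exact h1.symm

/-- the solution of the original equation obtained from a solution of the block equation -/
def back {A X : Type*} (sh : X → Sh A) (θ : X × Bool → ℕ) (τ : X → List (A × ℕ)) (x : X) :
    List A :=
  match sh x with
  | .nil => []
  | .one a => List.replicate (θ (x, false)) a
  | .two a b => List.replicate (θ (x, false)) a ++ (dec (τ x) ++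
      List.replicate (θ (x, true)) b)

theorem mg_back [Fintype X] (sh : X → Sh A) (θ : X × Bool → ℕ) (τ : X → List (A × ℕ)) :
    ∀ L : List (A ⊕ X), dec (sb τ (evl θ (mg sh L))) = sb (back sh θ τ) L
  | [] => rfl
  | .inl a :: L => by
      rw [mg_inl, evl_cmS _ _ _ _ _ (nv_mg sh L), dec_cm, mg_back sh θ τ L, ev_const, sb_inl]
      rfl
  | .inr x :: L => by
      rw [sb_inr]
      cases hsh : sh x with
      | nil =>
        have : back sh θ τ x = [] := by simp only [back, hsh]
        rw [mg_nil hsh, this, mg_back sh θ τ L]; rfl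
      | one a =>
        have : back sh θ τ x = List.replicate (θ (x, false)) a := by
          simp only [back, hsh]
        rw [mg_one hsh, this, evl_cmS _ _ _ _ _ (nv_mg sh L), dec_cm, mg_back sh θ τ L,
          ev_single]
      | two a b =>
        have : back sh θ τ x = List.replicate (θ (x, false)) a ++ (dec (τ x) ++
            List.replicate (θ (x, true)) b) := by
          simp only [back, hsh]
        rw [mg_two hsh, this, evl_inl, evl_inr, sb_inl, sb_inr, dec_cons, dec_append,
          evl_cmS _ _ _ _ _ (nv_mg sh L), dec_cm, mg_back sh θ τ L, ev_single, ev_single]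
        simp only [List.append_assoc]

theorem cN_mg (sh : X → Sh A) : ∀ L : List (A ⊕ X), cN (mg sh L) ≤ cN L + 2 * vN L
  | [] => le_rfl
  | .inl a :: L => by
      have ih := cN_mg sh L
      have h1 := cN_cmS a ((0, 1) : (X × Bool → ℕ) × ℕ) (mg sh L)
      rw [mg_inl]
      show _ ≤ cN L + 1 + 2 * vN L
      omega
  | .inr x :: L => by
      have ih := cN_mg sh L
      show _ ≤ cN L + 2 * (vN L + 1)
      cases hsh : sh x with
      | nil => rw [mg_nil hsh]; omega
      | one a =>
        have h1 := cN_cmS a ((Pi.single (x, false) 1, 0) : (X × Bool → ℕ) × ℕ) (mg sh L)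
        rw [mg_one hsh]
        omega
      | two a b =>
        have h1 := cN_cmS b ((Pi.single (x, true) 1, 0) : (X × Bool → ℕ) × ℕ) (mg sh L)
        rw [mg_two hsh]
        show cN (cmS b _ (mg sh L)) + 1 ≤ _
        omega

theorem vN_mg (sh : X → Sh A) : ∀ L : List (A ⊕ X), vN (mg sh L) ≤ vN L
  | [] => le_rfl
  | .inl a :: L => by
      rw [mg_inl, vN_cmS]
      exact vN_mg sh L
  | .inr x :: L => by
      have ih := vN_mg sh L
      show _ ≤ vN L + 1
      cases hsh : sh x with
      | nil => rw [mg_nil hsh]; omega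
      | one a => rw [mg_one hsh, vN_cmS]; omega
      | two a b =>
        rw [mg_two hsh]
        show vN (cmS b _ (mg sh L)) + 1 ≤ _
        rw [vN_cmS]; omega

theorem ad_mg (sh : X → Sh A) : ∀ L : List (A ⊕ X), AD (mg sh L)
  | [] => by intro p hp; simp [mg, aps] at hp
  | .inl a :: L => by rw [mg_inl]; exact ad_cmS _ _ _ (ad_mg sh L)
  | .inr x :: L => by
      have ih := ad_mg sh L
      cases hsh : sh x with
      | nil => rw [mg_nil hsh]; exact ih
      | one a => rw [mg_one hsh]; exact ad_cmS _ _ _ ih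
      | two a b => rw [mg_two hsh]; exact ad_cmS _ _ _ ih

/-- the letter of a parameter -/
def ltr {A X : Type*} (sh : X → Sh A) : X × Bool → Option A
  | (x, false) => match sh x with
    | .nil => none
    | .one a => some a
    | .two a _ => some a
  | (x, true) => match sh x with
    | .nil => none
    | .one _ => none
    | .two _ b => some b

/-- number of occurrences of a constant -/
def nA {A X : Type*} [DecidableEq A] (a : A) : List (A ⊕ X) → ℕ
  | [] => 0
  | .inl b :: s => (if b = a then 1 else 0) + nA a s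
  | .inr _ :: s => nA a s

omit [DecidableEq X] in
theorem nA_cw (w : A → ℕ) (a : A) : ∀ s : List (A ⊕ X), nA a s * w a ≤ cw w s
  | [] => by simp [nA]
  | .inl b :: s => by
      have ih := nA_cw w a s
      show ((if b = a then 1 else 0) + nA a s) * w a ≤ w b + cw w s
      split_ifs with h
      · rw [h, add_mul, one_mul]; omega
      · rw [zero_add]; omega
  | .inr _ :: s => nA_cw w a s

theorem forms_mg (sh : X → Sh A) : ∀ (L : List (A ⊕ X)) (t : A × ((X × Bool → ℕ) × ℕ)),
    .inl t ∈ mg sh L → (∀ i, t.2.1 i ≤ vN L) ∧ t.2.2 ≤ nA t.1 L ∧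
      ∀ i, t.2.1 i ≠ 0 → ltr sh i = some t.1
  | [], t, h => by simp [mg] at h
  | .inl a :: L, t, h => by
      have ih := forms_mg sh L
      rw [mg_inl] at h
      rcases mem_cmS h with h | rfl | ⟨G, hG, rfl⟩
      · obtain ⟨h1, h2, h3⟩ := ih t h
        exact ⟨h1, h2.trans (Nat.le_add_left _ _), h3⟩
      · refine ⟨fun i => Nat.zero_le _, ?_, fun i hi => absurd rfl hi⟩
        show 1 ≤ (if a = a then 1 else 0) + nA a L
        rw [if_pos rfl]; omega
      · obtain ⟨h1, h2, h3⟩ := ih (a, G) hG
        refine ⟨?_, ?_, ?_⟩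
        · intro i
          show 0 + G.1 i ≤ vN L
          rw [zero_add]; exact h1 i
        · show 1 + G.2 ≤ (if a = a then 1 else 0) + nA a L
          rw [if_pos rfl]
          exact Nat.add_le_add_left h2 1
        · intro i hi
          have hi' : 0 + G.1 i ≠ 0 := hi
          rw [zero_add] at hi'
          exact h3 i hi'
  | .inr x :: L, t, h => by
      have ih := forms_mg sh L
      have hsingle : ∀ (i j : X × Bool), (Pi.single i 1 : X × Bool → ℕ) j ≤ 1 := by
        intro i j
        by_cases hij : j = i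
        · subst hij; simp
        · simp [hij]
      have hsupp : ∀ (i j : X × Bool), (Pi.single i 1 : X × Bool → ℕ) j ≠ 0 → j = i := by
        intro i j hj
        by_contra hne
        exact hj (by simp [hne])
      have hcm : ∀ (a : A) (i : X × Bool), ltr sh i = some a →
          .inl t ∈ cmS a ((Pi.single i 1, 0) : (X × Bool → ℕ) × ℕ) (mg sh L) →
          (∀ j, t.2.1 j ≤ vN L + 1) ∧ t.2.2 ≤ nA t.1 L ∧
            ∀ j, t.2.1 j ≠ 0 → ltr sh j = some t.1 := by
        intro a i hi hmem
        rcases mem_cmS hmem with h | rfl | ⟨G, hG, rfl⟩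
        · obtain ⟨h1, h2, h3⟩ := ih t h
          exact ⟨fun j => (h1 j).trans (Nat.le_succ _), h2, h3⟩
        · refine ⟨fun j => (hsingle i j).trans (by omega), Nat.zero_le _, ?_⟩
          intro j hj
          rw [hsupp i j hj]; exact hi
        · obtain ⟨h1, h2, h3⟩ := ih (a, G) hG
          refine ⟨?_, ?_, ?_⟩
          · intro j
            show (Pi.single i 1 : X × Bool → ℕ) j + G.1 j ≤ vN L + 1
            have := hsingle i j
            have := h1 j
            show _ ≤ _
            have h5 : (a, G).2.1 j = G.1 j := rfl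
            omega
          · show 0 + G.2 ≤ nA a L
            rw [zero_add]; exact h2
          · intro j hj
            have hj' : (Pi.single i 1 : X × Bool → ℕ) j + G.1 j ≠ 0 := hj
            by_cases hs : (Pi.single i 1 : X × Bool → ℕ) j = 0
            · rw [hs, zero_add] at hj'
              exact h3 j hj'
            · rw [hsupp i j hs]; exact hi
      show (∀ i, t.2.1 i ≤ vN L + 1) ∧ t.2.2 ≤ nA t.1 L ∧ _
      cases hsh : sh x with
      | nil =>
        rw [mg_nil hsh] at h
        obtain ⟨h1, h2, h3⟩ := ih t h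
        exact ⟨fun j => (h1 j).trans (Nat.le_succ _), h2, h3⟩
      | one a =>
        rw [mg_one hsh] at h
        exact hcm a (x, false) (by simp only [ltr, hsh]) h
      | two a b =>
        rw [mg_two hsh] at h
        rcases List.mem_cons.1 h with h | h
        · rw [Sum.inl.injEq] at h
          subst h
          refine ⟨fun j => (hsingle _ j).trans (by omega), Nat.zero_le _, ?_⟩
          intro j hj
          rw [hsupp _ j hj]
          simp only [ltr, hsh]
        · rcases List.mem_cons.1 h with h | h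
          · cases h
          · exact hcm b (x, true) (by simp only [ltr, hsh]) h

theorem cw_mg [Fintype X] (w : A → ℕ) (sh : X → Sh A) (θ : X × Bool → ℕ) (K : ℕ)
    (hK : ∀ i a, ltr sh i = some a → θ i * w a ≤ K) : ∀ L : List (A ⊕ X),
    cw (w1 w) (evl θ (mg sh L)) ≤ cw w L + 2 * vN L * K
  | [] => Nat.zero_le _
  | .inl a :: L => by
      have ih := cw_mg w sh θ K hK L
      rw [mg_inl, cw_cmS, ev_const]
      show 1 * w a + _ ≤ w a + cw w L + 2 * vN L * K
      omega
  | .inr x :: L => by
      have ih := cw_mg w sh θ K hK L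
      have e : 2 * (vN L + 1) * K = 2 * vN L * K + 2 * K := by ring
      show _ ≤ cw w L + 2 * (vN L + 1) * K
      cases hsh : sh x with
      | nil => rw [mg_nil hsh]; omega
      | one a =>
        rw [mg_one hsh, cw_cmS, ev_single]
        have := hK (x, false) a (by simp only [ltr, hsh])
        omega
      | two a b =>
        rw [mg_two hsh, evl_inl, evl_inr]
        show ev θ (Pi.single (x, false) 1, 0) * w a + cw (w1 w) (evl θ (cmS b _ _)) ≤ _
        rw [cw_cmS, ev_single, ev_single]
        have h1 := hK (x, false) a (by simp only [ltr, hsh])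
        have h2 := hK (x, true) b (by simp only [ltr, hsh])
        omega

end Mg

/-- **Block compression step.** -/
theorem stepB (X : Type*) [Fintype X] [DecidableEq X] (V : ℕ) : ∃ κ : ℕ,
    ∀ {A : Type*} (w : A → ℕ) (L R : List (A ⊕ X)), vN L + vN R ≤ V →
      (∃ σ : X → List A, sb σ L = sb σ R) →
      ∃ L' R' : List ((A × ℕ) ⊕ X), (∃ τ : X → List (A × ℕ), sb τ L' = sb τ R') ∧
        vN L' + vN R' ≤ vN L + vN R ∧
        cN L' + cN R' ≤ cN L + cN R + 2 * (vN L + vN R) ∧
        (∀ p ∈ aps L' ++ aps R', p.1 ≠ p.2) ∧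
        cw (w1 w) L' + cw (w1 w) R' ≤ (1 + 2 * V * κ) * (cw w L + cw w R) ∧
        ∀ n, HasSol (w1 w) L' R' n → HasSol w L R n := by
  classical
  obtain ⟨κ, hκ⟩ := dickson_bound (X × Bool) V
  refine ⟨κ, ?_⟩
  intro A w L R hV hs
  obtain ⟨σ, hσ⟩ := hs
  choose sh p s mid hshape using fun x => exists_shape (rle (σ x))
  let θ : X × Bool → ℕ := fun i => match i with
    | (x, false) => p x
    | (x, true) => s x
  have hθ : ∀ x, rle (σ x) = shp (sh x) (θ (x, false)) (θ (x, true)) (mid x) := hshape
  have eL := mg_eval σ sh mid θ hθ L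
  have eR := mg_eval σ sh mid θ hθ R
  -- the small parameters, one letter at a time
  have hforms : ∀ (a : A) (F : (X × Bool → ℕ) × ℕ), .inl (a, F) ∈ mg sh L ++ mg sh R →
      (∀ i, F.1 i ≤ V) ∧ F.2 ≤ nA a L + nA a R ∧ ∀ i, F.1 i ≠ 0 → ltr sh i = some a := by
    intro a F hF
    rcases List.mem_append.1 hF with hF | hF
    · obtain ⟨h1, h2, h3⟩ := forms_mg sh L (a, F) hF
      exact ⟨fun i => (h1 i).trans (by omega), h2.trans (Nat.le_add_right _ _), h3⟩
    · obtain ⟨h1, h2, h3⟩ := forms_mg sh R (a, F) hF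
      exact ⟨fun i => (h1 i).trans (by omega), h2.trans (Nat.le_add_left _ _), h3⟩
  have hsupp : ∀ (a : A) (F : (X × Bool → ℕ) × ℕ) (η η' : X × Bool → ℕ),
      (∀ i, F.1 i ≠ 0 → ltr sh i = some a) → (∀ i, ltr sh i = some a → η i = η' i) →
        ev η F = ev η' F := by
    intro a F η η' h1 h2
    unfold ev
    congr 1
    refine Finset.sum_congr rfl ?_
    intro i _
    by_cases h0 : F.1 i = 0
    · rw [h0, zero_mul, zero_mul]
    · rw [h2 i (h1 i h0)]
  have hsmall : ∀ a : A, ∃ η : X × Bool → ℕ,
      (∀ F G, .inl (a, F) ∈ mg sh L ++ mg sh R → .inl (a, G) ∈ mg sh L ++ mg sh R →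
        ev θ F = ev θ G → ev η F = ev η G) ∧ ∀ i, η i ≤ κ * (nA a L + nA a R) := by
    intro a
    obtain ⟨η, -, h2, h3⟩ := hκ (fun i => if ltr sh i = some a then θ i else 0)
      (nA a L + nA a R)
      {q | .inl (a, q.1) ∈ mg sh L ++ mg sh R ∧ .inl (a, q.2) ∈ mg sh L ++ mg sh R ∧
        ev θ q.1 = ev θ q.2} (by
        rintro q ⟨hq1, hq2, hq3⟩
        obtain ⟨f1, f2, f3⟩ := hforms a q.1 hq1
        obtain ⟨g1, g2, g3⟩ := hforms a q.2 hq2
        refine ⟨f1, g1, f2, g2, ?_⟩
        rw [hsupp a q.1 (fun i => if ltr sh i = some a then θ i else 0) θ f3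
          (fun i hi => if_pos hi),
          hsupp a q.2 (fun i => if ltr sh i = some a then θ i else 0) θ g3
          (fun i hi => if_pos hi)]
        exact hq3)
    exact ⟨η, fun F G hF hG h => h2 (F, G) ⟨hF, hG, h⟩, h3⟩
  choose η hη1 hη2 using hsmall
  let θ' : X × Bool → ℕ := fun i => match ltr sh i with
    | none => 0
    | some a => η a i
  have hθ' : ∀ i a, ltr sh i = some a → θ' i = η a i := by
    intro i a hi
    show (match ltr sh i with
      | none => 0
      | some a => η a i) = η a i
    rw [hi]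
  have hev : ∀ a F, .inl (a, F) ∈ mg sh L ++ mg sh R → ev θ' F = ev (η a) F :=
    fun a F hF => hsupp a F θ' (η a) (hforms a F hF).2.2 (fun i hi => hθ' i a hi)
  let ρ : A × ℕ → A × ℕ := fun t =>
    if h : ∃ F, .inl (t.1, F) ∈ mg sh L ++ mg sh R ∧ ev θ F = t.2 then
      (t.1, ev θ' h.choose) else t
  have hρ : ∀ t, .inl t ∈ mg sh L ++ mg sh R → ρ (t.1, ev θ t.2) = (t.1, ev θ' t.2) := by
    intro t ht
    have h : ∃ F, .inl (t.1, F) ∈ mg sh L ++ mg sh R ∧ ev θ F = ev θ t.2 :=
      ⟨t.2, ht, rfl⟩
    show (if h : ∃ F, .inl (t.1, F) ∈ mg sh L ++ mg sh R ∧ ev θ F = ev θ t.2 then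
      (t.1, ev θ' h.choose) else (t.1, ev θ t.2)) = _
    rw [dif_pos h]
    obtain ⟨h1, h2⟩ := h.choose_spec
    rw [hev t.1 _ h1, hev t.1 t.2 ht, hη1 t.1 _ _ h1 ht h2]
  have hbound : ∀ i a, ltr sh i = some a → θ' i * w a ≤ κ * (cw w L + cw w R) := by
    intro i a hi
    rw [hθ' i a hi]
    calc η a i * w a ≤ κ * (nA a L + nA a R) * w a := Nat.mul_le_mul_right _ (hη2 a i)
      _ = κ * (nA a L * w a + nA a R * w a) := by ring
      _ ≤ κ * (cw w L + cw w R) :=
        Nat.mul_le_mul_left _ (Nat.add_le_add (nA_cw w a L) (nA_cw w a R))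
  refine ⟨evl θ' (mg sh L), evl θ' (mg sh R), ⟨fun x => (mid x).map ρ, ?_⟩, ?_, ?_, ?_, ?_, ?_⟩
  · rw [← relabel θ θ' mid ρ (mg sh L) (fun t ht => hρ t (List.mem_append_left _ ht)),
      ← relabel θ θ' mid ρ (mg sh R) (fun t ht => hρ t (List.mem_append_right _ ht)),
      eL, eR, hσ]
  · have e : ∀ S : List ((A × ((X × Bool → ℕ) × ℕ)) ⊕ X), vN (evl θ' S) = vN S := by
      intro S
      induction S with
      | nil => rfl
      | cons u S ih =>
        cases u with
        | inl t => rw [evl_inl]; exact ih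
        | inr x => rw [evl_inr]; show vN _ + 1 = vN _ + 1; rw [ih]
    rw [e, e]
    exact Nat.add_le_add (vN_mg sh L) (vN_mg sh R)
  · have e : ∀ S : List ((A × ((X × Bool → ℕ) × ℕ)) ⊕ X), cN (evl θ' S) = cN S := by
      intro S
      induction S with
      | nil => rfl
      | cons u S ih =>
        cases u with
        | inl t => rw [evl_inl]; show cN _ + 1 = cN _ + 1; rw [ih]
        | inr x => rw [evl_inr]; exact ih
    rw [e, e]
    have h1 := cN_mg sh L
    have h2 := cN_mg sh R
    omega
  · intro q hq heq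
    rcases List.mem_append.1 hq with hq | hq
    · exact aps_evl θ' _ (ad_mg sh L) q hq (by rw [heq])
    · exact aps_evl θ' _ (ad_mg sh R) q hq (by rw [heq])
  · have h1 := cw_mg w sh θ' _ hbound L
    have h2 := cw_mg w sh θ' _ hbound R
    have h3 : 2 * vN L * (κ * (cw w L + cw w R)) + 2 * vN R * (κ * (cw w L + cw w R)) ≤
        2 * V * κ * (cw w L + cw w R) := by
      calc 2 * vN L * (κ * (cw w L + cw w R)) + 2 * vN R * (κ * (cw w L + cw w R)) =
          2 * (vN L + vN R) * κ * (cw w L + cw w R) := by ring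
        _ ≤ 2 * V * κ * (cw w L + cw w R) := by gcongr
    have h4 : (1 + 2 * V * κ) * (cw w L + cw w R) =
        (cw w L + cw w R) + 2 * V * κ * (cw w L + cw w R) := by ring
    omega
  · rintro n ⟨τ, hτ, hn⟩
    refine ⟨back sh θ' τ, ?_, ?_⟩
    · rw [← mg_back sh θ' τ L, ← mg_back sh θ' τ R, hτ]
    · rw [← mg_back sh θ' τ L, wt_dec]
      exact hn

end WO45
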