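import Pool.Agent.WO45.PairS
import Pool.Agent.WO45.BlockS

/-! Word equations with few variable occurrences (MP_fc7ad9_lc). Helper module:
the base case, the recursion and the main theorem. -/

namespace WO45

open WE45

universe u v

/-- renaming of letters and variables -/
def ren {A B X Y : Type*} (f : A → B) (g : X → Y) (s : List (A ⊕ X)) : List (B ⊕ Y) :=
  s.map (Sum.map f g)

theorem sb_ren {A B X : Type*} (f : A → B) (σ : X → List A) : ∀ s : List (A ⊕ X),
    sb (fun x => (σ x).map f) (ren f id s) = (sb σ s).map f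
  | [] => rfl
  | .inl a :: s => by
      show sb _ (.inl (f a) :: ren f id s) = _
      rw [sb_inl, sb_inl, List.map_cons, sb_ren f σ s]
  | .inr x :: s => by
      show sb _ (.inr x :: ren f id s) = _
      rw [sb_inr, sb_inr, List.map_append, sb_ren f σ s]

theorem ren_ren {A B X : Type*} (f : A → B) (g : B → A) : ∀ s : List (A ⊕ X),
    (∀ a, .inl a ∈ s → g (f a) = a) → ren g id (ren f id s) = s
  | [], _ => rfl
  | .inl a :: s, h => by
      show .inl (g (f a)) :: ren g id (ren f id s) = _
      rw [h a (by simp), ren_ren f g s (fun b hb => h b (List.mem_cons_of_mem _ hb))]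
  | .inr x :: s, h => by
      show .inr x :: ren g id (ren f id s) = _
      rw [ren_ren f g s (fun b hb => h b (List.mem_cons_of_mem _ hb))]

theorem length_eq {A X : Type*} : ∀ s : List (A ⊕ X), s.length = cN s + vN s
  | [] => rfl
  | .inl a :: s => by
      rw [List.length_cons, length_eq s]
      show _ = cN s + 1 + vN s
      omega
  | .inr x :: s => by
      rw [List.length_cons, length_eq s]
      show _ = cN s + (vN s + 1)
      omega

/-- the letters of a word with variables -/
def lets {A X : Type*} (s : List (A ⊕ X)) : List A := s.filterMap (Sum.elim some (fun _ => none))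

theorem mem_lets {A X : Type*} {s : List (A ⊕ X)} {a : A} : a ∈ lets s ↔ .inl a ∈ s := by
  unfold lets
  rw [List.mem_filterMap]
  constructor
  · rintro ⟨u, hu, h⟩
    cases u with
    | inl b => simp at h; rw [← h]; exact hu
    | inr x => simp at h
  · intro h
    exact ⟨.inl a, h, rfl⟩

theorem length_lets {A X : Type*} : ∀ s : List (A ⊕ X), (lets s).length = cN s
  | [] => rfl
  | .inl a :: s => by
      show (lets s).length + 1 = cN s + 1
      rw [length_lets s]
  | .inr x :: s => length_lets s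

theorem wt_le {A : Type*} (w : A → ℕ) (M : ℕ) : ∀ u : List A, (∀ a ∈ u, w a ≤ M) →
    wt w u ≤ u.length * M
  | [], _ => Nat.zero_le _
  | a :: u, h => by
      have h1 := h a (by simp)
      have h2 := wt_le w M u (fun b hb => h b (List.mem_cons_of_mem _ hb))
      rw [wt_cons, List.length_cons, add_mul, one_mul]
      omega

/-- a list can be indexed by `Fin (n + 1)` -/
theorem exists_index {A : Type*} [DecidableEq A] (l : List A) (a0 : A) (h0 : a0 ∈ l) (n : ℕ)
    (hl : l.length ≤ n) : ∃ (f : A → Fin (n + 1)) (g : Fin (n + 1) → A),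
      (∀ a ∈ l, g (f a) = a) ∧ ∀ i, g i ∈ l := by
  refine ⟨fun a => ⟨min (l.idxOf a) n, by omega⟩, fun i => l.getD i.1 a0, ?_, ?_⟩
  · intro a ha
    have h1 : l.idxOf a < l.length := List.idxOf_lt_length_iff.2 ha
    show l.getD (min (l.idxOf a) n) a0 = a
    rw [min_eq_left (by omega), List.getD_eq_getElem _ _ h1]
    exact List.getElem_idxOf h1
  · intro i
    show l.getD i.1 a0 ∈ l
    by_cases h : i.1 < l.length
    · rw [List.getD_eq_getElem _ _ h]
      exact List.getElem_mem h
    · rw [List.getD_eq_default _ _ (by omega)]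
      exact h0

theorem base_bound (X : Type v) [Fintype X] (V C0 : ℕ) : ∃ K : ℕ,
    ∀ {A : Type u} (w : A → ℕ) (L R : List (A ⊕ X)), vN L + vN R ≤ V →
      cN L + cN R ≤ C0 → (∃ σ : X → List A, sb σ L = sb σ R) →
        HasSol w L R (K * (cw w L + cw w R)) := by
  classical
  -- a bound for the finitely many renamed equations
  have hfin : ({p : List (Fin (C0 + 1) ⊕ X) × List (Fin (C0 + 1) ⊕ X) |
      p.1.length ≤ C0 + V ∧ p.2.length ≤ C0 + V}).Finite := by
    have h1 := List.finite_length_le (Fin (C0 + 1) ⊕ X) (C0 + V)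
    exact (h1.prod h1).subset (fun p hp => hp)
  have hm : ∀ p : List (Fin (C0 + 1) ⊕ X) × List (Fin (C0 + 1) ⊕ X), ∃ m : ℕ,
      (∃ τ : X → List (Fin (C0 + 1)), sb τ p.1 = sb τ p.2) →
        ∃ τ : X → List (Fin (C0 + 1)), sb τ p.1 = sb τ p.2 ∧ (sb τ p.1).length ≤ m := by
    intro p
    by_cases h : ∃ τ : X → List (Fin (C0 + 1)), sb τ p.1 = sb τ p.2
    · obtain ⟨τ, hτ⟩ := h
      exact ⟨(sb τ p.1).length, fun _ => ⟨τ, hτ, le_rfl⟩⟩
    · exact ⟨0, fun h' => absurd h' h⟩
  choose m hm using hm
  obtain ⟨K, hK⟩ := (hfin.image m).bddAbove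
  refine ⟨K, ?_⟩
  intro A w L R hV hC hs
  by_cases hc : cN L + cN R = 0
  · -- no constants: the empty solution
    have hnil : ∀ s : List (A ⊕ X), cN s = 0 → sb (fun _ => ([] : List A)) s = [] := by
      intro s
      induction s with
      | nil => intro _; rfl
      | cons u s ih =>
        intro h
        cases u with
        | inl a => exact absurd h (Nat.succ_ne_zero _)
        | inr x => rw [sb_inr, ih h]; rfl
    refine ⟨fun _ => [], ?_, ?_⟩
    · rw [hnil L (by omega), hnil R (by omega)]
    · rw [hnil L (by omega)]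
      exact Nat.zero_le _
  · have hlen : (lets (L ++ R)).length = cN L + cN R := by
      rw [length_lets, cN_append]
    obtain ⟨a0, h0⟩ : ∃ a0, a0 ∈ lets (L ++ R) := by
      have : 0 < (lets (L ++ R)).length := by omega
      exact List.exists_mem_of_length_pos this
    obtain ⟨f, g, hfg, hg⟩ := exists_index (lets (L ++ R)) a0 h0 C0 (by omega)
    obtain ⟨σ, hσ⟩ := hs
    have hL : (ren f id L).length ≤ C0 + V := by
      show (L.map _).length ≤ _
      rw [List.length_map, length_eq]; omega
    have hR : (ren f id R).length ≤ C0 + V := by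
      show (R.map _).length ≤ _
      rw [List.length_map, length_eq]; omega
    have hmK : m (ren f id L, ren f id R) ≤ K :=
      hK (Set.mem_image_of_mem m (show (ren f id L, ren f id R) ∈
        {p : List (Fin (C0 + 1) ⊕ X) × List (Fin (C0 + 1) ⊕ X) |
          p.1.length ≤ C0 + V ∧ p.2.length ≤ C0 + V} from ⟨hL, hR⟩))
    obtain ⟨τ, hτ, hτm⟩ := hm (ren f id L, ren f id R)
      ⟨fun x => (σ x).map f, by
        show sb _ (ren f id L) = sb _ (ren f id R)
        rw [sb_ren, sb_ren, hσ]⟩
    have eL : sb (fun x => (τ x).map g) L = (sb τ (ren f id L)).map g := by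
      rw [← sb_ren, ren_ren f g L]
      intro a ha
      exact hfg a (mem_lets.2 (List.mem_append_left _ ha))
    have eR : sb (fun x => (τ x).map g) R = (sb τ (ren f id R)).map g := by
      rw [← sb_ren, ren_ren f g R]
      intro a ha
      exact hfg a (mem_lets.2 (List.mem_append_right _ ha))
    refine ⟨fun x => (τ x).map g, ?_, ?_⟩
    · rw [eL, eR, hτ]
    · rw [eL]
      have h1 : ∀ a ∈ (sb τ (ren f id L)).map g, w a ≤ cw w L + cw w R := by
        intro a ha
        obtain ⟨i, -, rfl⟩ := List.mem_map.1 ha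
        have := le_cw w (mem_lets.1 (hg i))
        rwa [cw_append] at this
      refine (wt_le w _ _ h1).trans (Nat.mul_le_mul_right _ ?_)
      rw [List.length_map]
      exact hτm.trans hmK

theorem HasSol.mono {A X : Type*} {w : A → ℕ} {L R : List (A ⊕ X)} {n m : ℕ}
    (h : HasSol w L R n) (hnm : n ≤ m) : HasSol w L R m := by
  obtain ⟨σ, h1, h2⟩ := h
  exact ⟨σ, h1, h2.trans hnm⟩

theorem main_rec (X : Type v) [Fintype X] (V : ℕ) : ∃ K D : ℕ,
    ∀ (c : ℕ) (A : Type u) (w : A → ℕ) (L R : List (A ⊕ X)), vN L + vN R ≤ V →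
      cN L + cN R ≤ c → (∃ σ : X → List A, sb σ L = sb σ R) →
        HasSol w L R (K * (cw w L + cw w R) * (c + 1) ^ D) := by
  classical
  obtain ⟨κ, hκ⟩ := stepB.{v, u} X V
  obtain ⟨K, hK⟩ := base_bound.{u, v} X V (30 * V + 5)
  obtain ⟨D, hD⟩ := pow_unbounded_of_one_lt (((1 + 2 * V) * (1 + 2 * V * κ) : ℕ) : ℝ)
    (by norm_num : (1 : ℝ) < 8 / 7)
  have hD' : (1 + 2 * V) * (1 + 2 * V * κ) * 7 ^ D ≤ 8 ^ D := by
    rw [div_pow, lt_div_iff₀ (by positivity)] at hD
    have h1 : (((1 + 2 * V) * (1 + 2 * V * κ) * 7 ^ D : ℕ) : ℝ) < ((8 ^ D : ℕ) : ℝ) := by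
      push_cast at hD ⊢
      exact hD
    exact le_of_lt (by exact_mod_cast h1)
  refine ⟨K, D, ?_⟩
  intro c
  induction c using Nat.strong_induction_on with
  | _ c ih =>
    intro A w L R hV hc hs
    by_cases hc0 : c < 30 * V + 5
    · refine (hK w L R hV (by omega) hs).mono ?_
      exact Nat.le_mul_of_pos_right _ (by positivity)
    · obtain ⟨L1, R1, hs1, hv1, hc1, hd1, hw1, hb1⟩ := hκ w L R hV hs
      obtain ⟨L2, R2, hs2, hv2, hc2, hw2, hb2⟩ := stepP (w1 w) L1 R1 hs1 hd1
      have hc3 : 8 * (cN L2 + cN R2 + 1) ≤ 7 * (c + 1) := by omega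
      have h1 := ih (cN L2 + cN R2) (by omega) (List (A × ℕ)) (wt (w1 w)) L2 R2
        (by omega) le_rfl hs2
      refine (hb1 _ (hb2 _ h1)).mono ?_
      have h2 : cw (wt (w1 w)) L2 + cw (wt (w1 w)) R2 ≤
          (1 + 2 * V) * (1 + 2 * V * κ) * (cw w L + cw w R) := by
        calc cw (wt (w1 w)) L2 + cw (wt (w1 w)) R2
            ≤ (1 + 2 * (vN L1 + vN R1)) * (cw (w1 w) L1 + cw (w1 w) R1) := hw2
          _ ≤ (1 + 2 * V) * ((1 + 2 * V * κ) * (cw w L + cw w R)) :=
            Nat.mul_le_mul (by omega) hw1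
          _ = (1 + 2 * V) * (1 + 2 * V * κ) * (cw w L + cw w R) := by ring
      have h3 : (8 * (cN L2 + cN R2 + 1)) ^ D ≤ (7 * (c + 1)) ^ D :=
        Nat.pow_le_pow_left hc3 D
      have h8 : 0 < 8 ^ D := by positivity
      refine Nat.le_of_mul_le_mul_left ?_ h8
      calc 8 ^ D * (K * (cw (wt (w1 w)) L2 + cw (wt (w1 w)) R2) *
            (cN L2 + cN R2 + 1) ^ D)
          = K * (cw (wt (w1 w)) L2 + cw (wt (w1 w)) R2) *
            (8 * (cN L2 + cN R2 + 1)) ^ D := by rw [mul_pow]; ring
        _ ≤ K * ((1 + 2 * V) * (1 + 2 * V * κ) * (cw w L + cw w R)) *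
            (7 * (c + 1)) ^ D :=
          Nat.mul_le_mul (Nat.mul_le_mul_left _ h2) h3
        _ = (1 + 2 * V) * (1 + 2 * V * κ) * 7 ^ D *
            (K * (cw w L + cw w R) * (c + 1) ^ D) := by rw [mul_pow]; ring
        _ ≤ 8 ^ D * (K * (cw w L + cw w R) * (c + 1) ^ D) :=
          Nat.mul_le_mul_right _ hD'

/-- the variables of a word -/
def vars {A X : Type*} (s : List (A ⊕ X)) : List X :=
  s.filterMap (Sum.elim (fun _ => none) some)

theorem mem_vars {A X : Type*} {s : List (A ⊕ X)} {x : X} : x ∈ vars s ↔ .inr x ∈ s := by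
  unfold vars
  rw [List.mem_filterMap]
  constructor
  · rintro ⟨u, hu, h⟩
    cases u with
    | inl b => simp at h
    | inr y => simp at h; rw [← h]; exact hu
  · intro h
    exact ⟨.inr x, h, rfl⟩

theorem length_vars {A X : Type*} : ∀ s : List (A ⊕ X), (vars s).length = vN s
  | [] => rfl
  | .inr a :: s => by
      show (vars s).length + 1 = vN s + 1
      rw [length_vars s]
  | .inl x :: s => length_vars s

theorem countP_eq_vN {A X : Type*} : ∀ s : List (A ⊕ X), s.countP Sum.isRight = vN s
  | [] => rfl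
  | .inr a :: s => by
      rw [List.countP_cons, countP_eq_vN s]; rfl
  | .inl x :: s => by
      rw [List.countP_cons, countP_eq_vN s]; rfl

theorem sb_renv {A X Y : Type*} (f : X → Y) (τ : Y → List A) : ∀ s : List (A ⊕ X),
    sb τ (ren id f s) = sb (fun x => τ (f x)) s
  | [] => rfl
  | .inl a :: s => by
      show sb _ (.inl a :: ren id f s) = _
      rw [sb_inl, sb_inl, sb_renv f τ s]
  | .inr x :: s => by
      show sb _ (.inr (f x) :: ren id f s) = _
      rw [sb_inr, sb_inr, sb_renv f τ s]

theorem vN_ren {A X Y : Type*} (f : X → Y) : ∀ s : List (A ⊕ X), vN (ren id f s) = vN s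
  | [] => rfl
  | .inl a :: s => vN_ren f s
  | .inr x :: s => by
      show vN (ren id f s) + 1 = vN s + 1
      rw [vN_ren f s]

theorem cN_ren {A X Y : Type*} (f : X → Y) : ∀ s : List (A ⊕ X), cN (ren id f s) = cN s
  | [] => rfl
  | .inr a :: s => cN_ren f s
  | .inl x :: s => by
      show cN (ren id f s) + 1 = cN s + 1
      rw [cN_ren f s]

theorem cw_one {A X : Type*} : ∀ s : List (A ⊕ X), cw (fun _ => 1) s = cN s
  | [] => rfl
  | .inr a :: s => cw_one s
  | .inl x :: s => by
      show 1 + cw (fun _ => 1) s = cN s + 1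
      rw [cw_one s]; omega

theorem wt_one {A : Type*} (u : List A) : wt (fun _ => 1) u = u.length := by
  simp [wt]

/-- **Few variable occurrences.** For every `v` there is `C` such that every solvable word
equation with at most `v` occurrences of variables has a solution of length at most
`C n ^ C`. -/
theorem few_occurrences (v₀ : ℕ) : ∃ C : ℕ, ∀ {A : Type u} {X : Type v} [Fintype X]
    (L R : List (A ⊕ X)), (L ++ R).countP Sum.isRight ≤ v₀ →
      (∃ σ : X → List A, sb σ L = sb σ R) →
        ∃ σ : X → List A, sb σ L = sb σ R ∧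
          ∑ x, (σ x).length ≤ C * (L.length + R.length) ^ C := by
  classical
  obtain ⟨K, D, hKD⟩ := main_rec.{u, 0} (Fin (v₀ + 1)) v₀
  refine ⟨2 * K * 2 ^ D + D + 1, ?_⟩
  intro A X _ L R hv hs
  rw [countP_eq_vN, vN_append] at hv
  obtain ⟨σ₀, hσ₀⟩ := hs
  by_cases hv0 : vN L + vN R = 0
  · -- no variables
    have hno : ∀ s : List (A ⊕ X), vN s = 0 → ∀ x, .inr x ∉ s := by
      intro s hs x hx
      have h1 := mem_vars.2 hx
      have h2 := length_vars s
      rw [hs] at h2
      rw [List.length_eq_zero_iff.1 h2] at h1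
      exact absurd h1 (by simp)
    refine ⟨fun _ => [], ?_, ?_⟩
    · rw [sb_congr (τ := σ₀) L (fun x hx => absurd hx (hno L (by omega) x)),
        sb_congr (τ := σ₀) R (fun x hx => absurd hx (hno R (by omega) x)), hσ₀]
    · simp
  · have hlen : (vars (L ++ R)).length = vN L + vN R := by
      rw [length_vars, vN_append]
    obtain ⟨x0, h0⟩ : ∃ x0, x0 ∈ vars (L ++ R) := by
      have : 0 < (vars (L ++ R)).length := by omega
      exact List.exists_mem_of_length_pos this
    obtain ⟨f, g, hfg, hg⟩ := exists_index (vars (L ++ R)) x0 h0 v₀ (by omega)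
    have key := hKD (cN L + cN R) A (fun _ => 1) (ren id f L) (ren id f R)
      (by rw [vN_ren, vN_ren]; exact hv) (by rw [cN_ren, cN_ren])
      ⟨fun i => σ₀ (g i), by
        rw [sb_renv, sb_renv,
          sb_congr (τ := σ₀) L (fun x hx => by
            show σ₀ (g (f x)) = σ₀ x
            rw [hfg x (mem_vars.2 (List.mem_append_left _ hx))]),
          sb_congr (τ := σ₀) R (fun x hx => by
            show σ₀ (g (f x)) = σ₀ x
            rw [hfg x (mem_vars.2 (List.mem_append_right _ hx))]), hσ₀]⟩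
    obtain ⟨τ, hτ, hτn⟩ := key
    rw [cw_one, cw_one, cN_ren, cN_ren, wt_one] at hτn
    let σ : X → List A := fun x => if (.inr x : A ⊕ X) ∈ L ++ R then τ (f x) else []
    have eL : sb σ L = sb τ (ren id f L) := by
      rw [sb_renv]
      refine sb_congr _ ?_
      intro x hx
      show (if (.inr x : A ⊕ X) ∈ L ++ R then τ (f x) else []) = _
      rw [if_pos (List.mem_append_left _ hx)]
    have eR : sb σ R = sb τ (ren id f R) := by
      rw [sb_renv]
      refine sb_congr _ ?_
      intro x hx
      show (if (.inr x : A ⊕ X) ∈ L ++ R then τ (f x) else []) = _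
      rw [if_pos (List.mem_append_right _ hx)]
    refine ⟨σ, by rw [eL, eR, hτ], ?_⟩
    have h1 : ∑ x, (σ x).length ≤ ∑ x, (σ x).length * (L ++ R).count (.inr x) := by
      refine Finset.sum_le_sum ?_
      intro x _
      by_cases hx : (.inr x : A ⊕ X) ∈ L ++ R
      · exact Nat.le_mul_of_pos_right _ (List.count_pos_iff.2 hx)
      · have : σ x = [] := by
          show (if (.inr x : A ⊕ X) ∈ L ++ R then τ (f x) else []) = _
          rw [if_neg hx]
        rw [this]; simp
    have h2 := h1.trans (sum_le_sb σ (L ++ R))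
    rw [sb_append, eL, eR, ← hτ, List.length_append] at h2
    set n := L.length + R.length with hn
    have hcn : cN L + cN R ≤ n := by
      rw [hn, length_eq, length_eq]; omega
    have hn1 : 1 ≤ n := by
      rw [hn, length_eq, length_eq]; omega
    calc ∑ x, (σ x).length
        ≤ 2 * (K * (cN L + cN R) * (cN L + cN R + 1) ^ D) := by omega
      _ ≤ 2 * (K * n * (2 * n) ^ D) := by
          refine Nat.mul_le_mul_left _ (Nat.mul_le_mul (Nat.mul_le_mul_left _ hcn)
            (Nat.pow_le_pow_left (by omega) D))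
      _ = 2 * K * 2 ^ D * n ^ (D + 1) := by rw [mul_pow, pow_succ]; ring
      _ ≤ (2 * K * 2 ^ D + D + 1) * n ^ (2 * K * 2 ^ D + D + 1) :=
          Nat.mul_le_mul (by omega) (Nat.pow_le_pow_right hn1 (by omega))

end WO45
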