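import Pool.Agent.WO45.Basic

/-! Word equations with few variable occurrences (MP_fc7ad9_lc). Helper module:
the pair compression step. -/

namespace WO45

open WE45

variable {A X : Type*}

/-- pair compression of a word: pairs `a b` with `Γ a`, not `Γ b`, become one letter -/
def pc (Γ : A → Bool) : List A → List (List A)
  | [] => []
  | [a] => [[a]]
  | a :: b :: u => if Γ a && !Γ b then [a, b] :: pc Γ u else [a] :: pc Γ (b :: u)

theorem pc_cons {Γ : A → Bool} {a : A} {u : List A}
    (h : ∀ b ∈ u.head?, (Γ a && !Γ b) = false) : pc Γ (a :: u) = [a] :: pc Γ u := by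
  cases u with
  | nil => rfl
  | cons b u =>
    have h1 := h b (by simp)
    show (if Γ a && !Γ b then [a, b] :: pc Γ u else [a] :: pc Γ (b :: u)) = _
    rw [h1]; rfl

theorem pc_append {Γ : A → Bool} : ∀ (u v : List A),
    (∀ a ∈ u.getLast?, ∀ b ∈ v.head?, (Γ a && !Γ b) = false) →
      pc Γ (u ++ v) = pc Γ u ++ pc Γ v
  | [], v, _ => rfl
  | [a], v, h => by
      rw [List.singleton_append, pc_cons (fun b hb => h a (by simp) b hb)]
      rfl
  | a :: b :: u, v, h => by
      have h1 : ∀ c ∈ (b :: u).getLast?, ∀ d ∈ v.head?, (Γ c && !Γ d) = false := by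
        intro c hc
        refine h c ?_
        rw [List.getLast?_cons_cons]
        exact hc
      show (if Γ a && !Γ b then [a, b] :: pc Γ (u ++ v) else [a] :: pc Γ ((b :: u) ++ v)) =
        (if Γ a && !Γ b then [a, b] :: pc Γ u else [a] :: pc Γ (b :: u)) ++ pc Γ v
      by_cases hab : (Γ a && !Γ b) = true
      · rw [if_pos hab, if_pos hab, List.cons_append]
        congr 1
        refine pc_append u v ?_
        intro c hc
        refine h1 c ?_
        cases u with
        | nil => simp at hc
        | cons d u => rw [List.getLast?_cons_cons]; exact hc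
      · have h2 := pc_append (b :: u) v h1
        rw [List.cons_append] at h2
        rw [if_neg hab, if_neg hab, List.cons_append, List.cons_append, h2]

/-- pair compression of a word with variables -/
def pcs (Γ : A → Bool) : List (A ⊕ X) → List (List A ⊕ X)
  | [] => []
  | .inr x :: s => .inr x :: pcs Γ s
  | [.inl a] => [.inl [a]]
  | .inl a :: .inr x :: s => .inl [a] :: .inr x :: pcs Γ s
  | .inl a :: .inl b :: s =>
    if Γ a && !Γ b then .inl [a, b] :: pcs Γ s else .inl [a] :: pcs Γ (.inl b :: s)

/-- first letter of a symbol -/
def fL (m : X → List A) : A ⊕ X → Option A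
  | .inl a => some a
  | .inr x => (m x).head?

/-- last letter of a symbol -/
def lL (m : X → List A) : A ⊕ X → Option A
  | .inl a => some a
  | .inr x => (m x).getLast?

/-- no crossing pair between two adjacent symbols -/
def Rm (Γ : A → Bool) (m : X → List A) (u v : A ⊕ X) : Prop :=
  (∃ a b, u = .inl a ∧ v = .inl b) ∨
    ∀ a ∈ lL m u, ∀ b ∈ fL m v, (Γ a && !Γ b) = false

theorem head_sb {m : X → List A} {u : A ⊕ X} {s : List (A ⊕ X)}
    (h : ∀ x, u = .inr x → m x ≠ []) : (sb m (u :: s)).head? = fL m u := by
  cases u with
  | inl a => rw [sb_inl]; rfl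
  | inr x =>
    rw [sb_inr]
    have h1 := h x rfl
    cases hm : m x with
    | nil => exact absurd hm h1
    | cons a t => simp [fL, hm]

theorem pcs_correct {Γ : A → Bool} {m : X → List A} : ∀ s : List (A ⊕ X),
    (∀ x, .inr x ∈ s → m x ≠ []) → s.IsChain (Rm Γ m) →
      pc Γ (sb m s) = sb (fun x => pc Γ (m x)) (pcs Γ s)
  | [], _, _ => rfl
  | .inr x :: s, hne, hch => by
      have ih := pcs_correct s (fun z hz => hne z (List.mem_cons_of_mem _ hz)) hch.tail
      rw [sb_inr, pc_append, ih]
      · show _ = sb _ (.inr x :: pcs Γ s)
        rw [sb_inr]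
      · cases s with
        | nil => intro a _ b hb; simp [sb_nil] at hb
        | cons v s =>
          rw [head_sb (fun z hz => hne z (by simp [hz]))]
          rcases (List.isChain_cons_cons.1 hch).1 with ⟨a, b, h1, -⟩ | h1
          · cases h1
          · exact h1
  | [.inl a], _, _ => by
      rw [sb_inl]
      show pc Γ [a] = sb _ [.inl [a]]
      rw [sb_inl]; rfl
  | .inl a :: .inr x :: s, hne, hch => by
      have ih := pcs_correct (.inr x :: s) (fun z hz => hne z (List.mem_cons_of_mem _ hz))
        hch.tail
      rw [sb_inl, pc_cons, ih]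
      · show _ = sb _ (.inl [a] :: .inr x :: pcs Γ s)
        rw [sb_inl]; rfl
      · rw [head_sb (fun z hz => hne z (by simp [hz]))]
        rcases (List.isChain_cons_cons.1 hch).1 with ⟨a, b, -, h1⟩ | h1
        · cases h1
        · exact h1 a rfl
  | .inl a :: .inl b :: s, hne, hch => by
      have ih1 := pcs_correct s
        (fun z hz => hne z (List.mem_cons_of_mem _ (List.mem_cons_of_mem _ hz))) hch.tail.tail
      have ih2 := pcs_correct (.inl b :: s) (fun z hz => hne z (List.mem_cons_of_mem _ hz))
        hch.tail
      rw [sb_inl] at ih2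
      rw [sb_inl, sb_inl]
      show (if Γ a && !Γ b then [a, b] :: pc Γ (sb m s) else [a] :: pc Γ (b :: sb m s)) =
        sb _ (if Γ a && !Γ b then .inl [a, b] :: pcs Γ s else .inl [a] :: pcs Γ (.inl b :: s))
      by_cases hab : (Γ a && !Γ b) = true
      · rw [if_pos hab, if_pos hab, sb_inl, ih1]
      · rw [if_neg hab, if_neg hab, sb_inl, ih2]

theorem flatten_pcs (Γ : A → Bool) (τ : X → List (List A)) : ∀ s : List (A ⊕ X),
    (sb τ (pcs Γ s)).flatten = sb (fun x => (τ x).flatten) s
  | [] => rfl
  | .inr x :: s => by
      show (sb τ (.inr x :: pcs Γ s)).flatten = _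
      rw [sb_inr, sb_inr, List.flatten_append, flatten_pcs Γ τ s]
  | [.inl a] => by
      show (sb τ [.inl [a]]).flatten = _
      rw [sb_inl, sb_inl]; rfl
  | .inl a :: .inr x :: s => by
      show (sb τ (.inl [a] :: .inr x :: pcs Γ s)).flatten = _
      rw [sb_inl, sb_inr, sb_inl, sb_inr, List.flatten_cons, List.flatten_append,
        flatten_pcs Γ τ s]
      rfl
  | .inl a :: .inl b :: s => by
      show (sb τ (if Γ a && !Γ b then .inl [a, b] :: pcs Γ s
        else .inl [a] :: pcs Γ (.inl b :: s))).flatten = _
      have ih := flatten_pcs Γ τ (.inl b :: s)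
      rw [sb_inl] at ih
      by_cases hab : (Γ a && !Γ b) = true
      · rw [if_pos hab, sb_inl, sb_inl, sb_inl, List.flatten_cons, flatten_pcs Γ τ s]
        rfl
      · rw [if_neg hab, sb_inl, sb_inl, sb_inl, List.flatten_cons, ih]
        rfl

theorem aps_inl_false {Γ : A → Bool} {b : A} (hb : Γ b = false) (s : List (A ⊕ X)) :
    (aps (.inl b :: s)).countP (fun p => Γ p.1 && !Γ p.2) =
      (aps s).countP (fun p => Γ p.1 && !Γ p.2) := by
  match s with
  | [] => rfl
  | .inr x :: s => rfl
  | .inl c :: s =>
    show ((b, c) :: aps (.inl c :: s)).countP (fun p => Γ p.1 && !Γ p.2) = _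
    rw [List.countP_cons]
    simp [hb]

theorem cN_pcs (Γ : A → Bool) : ∀ s : List (A ⊕ X),
    cN (pcs Γ s) + (aps s).countP (fun p => Γ p.1 && !Γ p.2) = cN s
  | [] => rfl
  | .inr x :: s => cN_pcs Γ s
  | [.inl a] => rfl
  | .inl a :: .inr x :: s => by
      have := cN_pcs Γ s
      show cN (pcs Γ s) + 1 + (aps s).countP (fun p => Γ p.1 && !Γ p.2) = cN s + 1
      omega
  | .inl a :: .inl b :: s => by
      have ih1 := cN_pcs Γ s
      have ih2 := cN_pcs Γ (.inl b :: s)
      show cN (if Γ a && !Γ b then .inl [a, b] :: pcs Γ s
        else .inl [a] :: pcs Γ (.inl b :: s)) +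
        ((a, b) :: aps (.inl b :: s)).countP (fun p => Γ p.1 && !Γ p.2) =
        cN (.inl b :: s) + 1
      rw [List.countP_cons]
      by_cases hab : (Γ a && !Γ b) = true
      · have hb : Γ b = false := by
          cases hb : Γ b
          · rfl
          · rw [hb] at hab; simp at hab
        rw [if_pos hab, if_pos hab, aps_inl_false hb]
        show cN (pcs Γ s) + 1 + _ = cN s + 1 + 1
        omega
      · rw [if_neg hab, if_neg hab]
        show cN (pcs Γ (.inl b :: s)) + 1 + _ = _
        omega

theorem vN_pcs (Γ : A → Bool) : ∀ s : List (A ⊕ X), vN (pcs Γ s) = vN s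
  | [] => rfl
  | .inr x :: s => by
      show vN (pcs Γ s) + 1 = vN s + 1
      rw [vN_pcs Γ s]
  | [.inl a] => rfl
  | .inl a :: .inr x :: s => by
      show vN (pcs Γ s) + 1 = vN s + 1
      rw [vN_pcs Γ s]
  | .inl a :: .inl b :: s => by
      have ih1 := vN_pcs Γ s
      have ih2 := vN_pcs Γ (.inl b :: s)
      show vN (if Γ a && !Γ b then .inl [a, b] :: pcs Γ s
        else .inl [a] :: pcs Γ (.inl b :: s)) = vN (.inl b :: s)
      split_ifs
      · exact ih1
      · exact ih2

theorem cw_pcs (Γ : A → Bool) (w : A → ℕ) : ∀ s : List (A ⊕ X),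
    cw (wt w) (pcs Γ s) = cw w s
  | [] => rfl
  | .inr x :: s => cw_pcs Γ w s
  | [.inl a] => by
      show wt w [a] + 0 = w a + 0
      simp [wt]
  | .inl a :: .inr x :: s => by
      show wt w [a] + cw (wt w) (pcs Γ s) = w a + cw w s
      rw [cw_pcs Γ w s]; simp [wt]
  | .inl a :: .inl b :: s => by
      have ih1 := cw_pcs Γ w s
      have ih2 := cw_pcs Γ w (.inl b :: s)
      show cw (wt w) (if Γ a && !Γ b then .inl [a, b] :: pcs Γ s
        else .inl [a] :: pcs Γ (.inl b :: s)) = w a + cw w (.inl b :: s)
      split_ifs
      · show wt w [a, b] + cw (wt w) (pcs Γ s) = w a + (w b + cw w s)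
        rw [ih1]; simp [wt]; omega
      · show wt w [a] + cw (wt w) (pcs Γ (.inl b :: s)) = _
        rw [ih2]; simp [wt]

theorem wt_flatten (w : A → ℕ) (T : List (List A)) : wt w T.flatten = wt (wt w) T := by
  induction T with
  | nil => rfl
  | cons u T ih => rw [List.flatten_cons, wt_append, wt_cons, ih]

/-- splitting off the letters that could form crossing pairs -/
theorem split_word (Γ : A → Bool) (u : List A) : ∃ p m q : List A,
    u = p ++ m ++ q ∧ p.length ≤ 1 ∧ q.length ≤ 1 ∧
      (m ≠ [] → (∀ b ∈ p, Γ b = false) ∧ (p = [] → ∀ b ∈ m.head?, Γ b = true) ∧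
        (∀ a ∈ q, Γ a = true) ∧ (q = [] → ∀ a ∈ m.getLast?, Γ a = false)) := by
  -- first the right end
  have h1 : ∀ v : List A, ∃ m q : List A, v = m ++ q ∧ q.length ≤ 1 ∧
      (∀ a ∈ q, Γ a = true) ∧ (q = [] → ∀ a ∈ m.getLast?, Γ a = false) := by
    intro v
    rcases List.eq_nil_or_concat v with rfl | ⟨t, a, rfl⟩
    · exact ⟨[], [], rfl, by simp, by simp, by simp⟩
    · cases ha : Γ a
      · refine ⟨t ++ [a], [], by simp, by simp, by simp, ?_⟩
        intro _ b hb
        rw [List.getLast?_append] at hb
        simp only [List.getLast?_singleton, Option.some_or, Option.mem_def,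
          Option.some.injEq] at hb
        rw [← hb]; exact ha
      · refine ⟨t, [a], by simp, by simp, ?_, by simp⟩
        intro b hb
        rw [List.mem_singleton] at hb
        rw [hb]; exact ha
  cases u with
  | nil => exact ⟨[], [], [], rfl, by simp, by simp, fun h => absurd rfl h⟩
  | cons b t =>
    cases hb : Γ b
    · obtain ⟨m, q, h2, h3, h4, h5⟩ := h1 t
      refine ⟨[b], m, q, by rw [h2]; simp, by simp, h3, fun _ => ⟨?_, by simp, h4, h5⟩⟩
      intro c hc
      rw [List.mem_singleton] at hc
      rw [hc]; exact hb
    · obtain ⟨m, q, h2, h3, h4, h5⟩ := h1 (b :: t)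
      refine ⟨[], m, q, by rw [h2]; simp, by simp, h3, fun hm => ⟨by simp, ?_, h4, h5⟩⟩
      intro _ c hc
      cases m with
      | nil => exact absurd rfl hm
      | cons d m =>
        rw [List.cons_append, List.cons.injEq] at h2
        simp only [List.head?_cons, Option.mem_def, Option.some.injEq] at hc
        rw [← hc, ← h2.1]; exact hb

/-- replacement of a symbol in the popping step -/
def chunk (p m q : X → List A) : A ⊕ X → List (A ⊕ X)
  | .inl a => [.inl a]
  | .inr x => (p x).map .inl ++ (if (m x).isEmpty then [] else [.inr x]) ++ (q x).map .inl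

/-- the popped equation -/
def popP (p m q : X → List A) (s : List (A ⊕ X)) : List (A ⊕ X) :=
  s.flatMap (chunk p m q)

theorem popP_cons (p m q : X → List A) (u : A ⊕ X) (s : List (A ⊕ X)) :
    popP p m q (u :: s) = chunk p m q u ++ popP p m q s := by
  simp [popP]

theorem sb_popP (p m q μ : X → List A) : ∀ s : List (A ⊕ X),
    sb μ (popP p m q s) =
      sb (fun x => p x ++ (if (m x).isEmpty then [] else μ x) ++ q x) s
  | [] => rfl
  | .inl a :: s => by
      rw [popP_cons, sb_append, sb_popP p m q μ s, sb_inl]
      show sb μ [.inl a] ++ _ = _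
      rw [sb_inl]; rfl
  | .inr x :: s => by
      rw [popP_cons, sb_append, sb_popP p m q μ s, sb_inr]
      congr 1
      show sb μ ((p x).map .inl ++ (if (m x).isEmpty then [] else [.inr x]) ++
        (q x).map .inl) = _
      rw [sb_append, sb_append, sb_map_inl, sb_map_inl]
      split_ifs
      · rfl
      · rw [sb_inr, sb_nil, List.append_nil]

theorem popP_ne (p m q : X → List A) : ∀ (s : List (A ⊕ X)) (x : X),
    .inr x ∈ popP p m q s → m x ≠ []
  | [], x, h => by simp [popP] at h
  | u :: s, x, h => by
      rw [popP_cons, List.mem_append] at h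
      rcases h with h | h
      · cases u with
        | inl a => simp [chunk] at h
        | inr z =>
          simp only [chunk, List.mem_append, List.mem_map, reduceCtorEq, and_false,
            exists_false, false_or, or_false] at h
          split_ifs at h with hz
          · simp at h
          · simp only [List.mem_singleton, Sum.inr.injEq] at h
            subst h
            intro hm
            rw [hm] at hz
            simp at hz
      · exact popP_ne p m q s x h

theorem cN_popP (p m q : X → List A) (hp : ∀ x, (p x).length ≤ 1)
    (hq : ∀ x, (q x).length ≤ 1) : ∀ s : List (A ⊕ X),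
    cN (popP p m q s) ≤ cN s + 2 * vN s
  | [] => le_rfl
  | .inl a :: s => by
      have ih := cN_popP p m q hp hq s
      rw [popP_cons, cN_append]
      show cN [.inl a] + _ ≤ cN s + 1 + 2 * vN s
      have : cN ([.inl a] : List (A ⊕ X)) = 1 := rfl
      omega
  | .inr x :: s => by
      have ih := cN_popP p m q hp hq s
      rw [popP_cons, cN_append]
      show cN ((p x).map .inl ++ (if (m x).isEmpty then [] else [.inr x]) ++
        (q x).map .inl) + _ ≤ cN s + 2 * (vN s + 1)
      rw [cN_append, cN_append, cN_map, cN_map]
      have h1 := hp x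
      have h2 := hq x
      have h3 : cN (if (m x).isEmpty then [] else [.inr x] : List (A ⊕ X)) = 0 := by
        split_ifs <;> rfl
      omega

theorem vN_popP (p m q : X → List A) : ∀ s : List (A ⊕ X),
    vN (popP p m q s) ≤ vN s
  | [] => le_rfl
  | .inl a :: s => by
      have ih := vN_popP p m q s
      rw [popP_cons, vN_append]
      show vN [.inl a] + _ ≤ vN s
      have : vN ([.inl a] : List (A ⊕ X)) = 0 := rfl
      omega
  | .inr x :: s => by
      have ih := vN_popP p m q s
      rw [popP_cons, vN_append]
      show vN ((p x).map .inl ++ (if (m x).isEmpty then [] else [.inr x]) ++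
        (q x).map .inl) + _ ≤ vN s + 1
      rw [vN_append, vN_append, vN_map, vN_map]
      have h3 : vN (if (m x).isEmpty then [] else [.inr x] : List (A ⊕ X)) ≤ 1 := by
        split_ifs
        · exact Nat.zero_le _
        · exact le_rfl
      omega

theorem cw_popP (w : A → ℕ) (p m q : X → List A) (Ω : ℕ) (hp : ∀ x, wt w (p x) ≤ Ω)
    (hq : ∀ x, wt w (q x) ≤ Ω) : ∀ s : List (A ⊕ X),
    cw w (popP p m q s) ≤ cw w s + 2 * vN s * Ω
  | [] => Nat.zero_le _
  | .inl a :: s => by
      have ih := cw_popP w p m q Ω hp hq s
      rw [popP_cons, cw_append]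
      show w a + 0 + _ ≤ w a + cw w s + 2 * vN s * Ω
      omega
  | .inr x :: s => by
      have ih := cw_popP w p m q Ω hp hq s
      rw [popP_cons, cw_append]
      show cw w ((p x).map .inl ++ (if (m x).isEmpty then [] else [.inr x]) ++
        (q x).map .inl) + _ ≤ cw w s + 2 * (vN s + 1) * Ω
      rw [cw_append, cw_append, cw_map, cw_map]
      have h1 := hp x
      have h2 := hq x
      have h3 : cw w (if (m x).isEmpty then [] else [.inr x] : List (A ⊕ X)) = 0 := by
        split_ifs <;> rfl
      have h4 : 2 * (vN s + 1) * Ω = 2 * vN s * Ω + 2 * Ω := by ring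
      omega

theorem aps_popP (p m q : X → List A) : ∀ s : List (A ⊕ X),
    (aps s).Sublist (aps (popP p m q s))
  | [] => List.Sublist.refl _
  | .inr x :: s => by
      rw [popP_cons]
      exact (aps_popP p m q s).trans (aps_append _ _)
  | [.inl a] => List.nil_sublist _
  | .inl a :: .inr x :: s => by
      rw [popP_cons, popP_cons, ← List.append_assoc]
      exact (aps_popP p m q s).trans (aps_append _ _)
  | .inl a :: .inl b :: s => by
      have ih := aps_popP p m q (.inl b :: s)
      rw [popP_cons] at ih ⊢
      rw [popP_cons]
      show ((a, b) :: aps (.inl b :: s)).Sublist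
        ((a, b) :: aps (.inl b :: popP p m q s))
      exact ih.cons_cons _

theorem chain_popP {Γ : A → Bool} {p m q : X → List A}
    (hp : ∀ x, (p x).length ≤ 1) (hq : ∀ x, (q x).length ≤ 1)
    (hm : ∀ x, m x ≠ [] → (∀ b ∈ p x, Γ b = false) ∧
      (p x = [] → ∀ b ∈ (m x).head?, Γ b = true) ∧
      (∀ a ∈ q x, Γ a = true) ∧ (q x = [] → ∀ a ∈ (m x).getLast?, Γ a = false)) :
    ∀ s : List (A ⊕ X), (popP p m q s).IsChain (Rm Γ m) ∧
      ∀ v ∈ (popP p m q s).head?, ∀ x, v = .inr x → ∀ b ∈ (m x).head?, Γ b = true
  | [] => ⟨List.IsChain.nil, by simp [popP]⟩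
  | u :: s => by
      obtain ⟨ih1, ih2⟩ := chain_popP hp hq hm s
      have hchunk : (chunk p m q u).IsChain (Rm Γ m) ∧
          (∀ v ∈ (chunk p m q u).head?, ∀ x, v = .inr x →
            ∀ b ∈ (m x).head?, Γ b = true) ∧
          (∀ v ∈ (chunk p m q u).getLast?, ∀ x, v = .inr x →
            ∀ a ∈ (m x).getLast?, Γ a = false) := by
        cases u with
        | inl a => simp [chunk]
        | inr x =>
          have hp' : p x = [] ∨ ∃ b, p x = [b] := by
            have := hp x
            rcases hpx : p x with _ | ⟨b, _ | ⟨c, t⟩⟩
            · exact Or.inl rfl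
            · exact Or.inr ⟨b, rfl⟩
            · rw [hpx] at this; simp at this
          have hq' : q x = [] ∨ ∃ b, q x = [b] := by
            have := hq x
            rcases hqx : q x with _ | ⟨b, _ | ⟨c, t⟩⟩
            · exact Or.inl rfl
            · exact Or.inr ⟨b, rfl⟩
            · rw [hqx] at this; simp at this
          by_cases hmx : m x = []
          · have hc : chunk p m q (.inr x) = (p x).map .inl ++ (q x).map .inl := by
              simp [chunk, hmx]
            rw [hc]
            rcases hp' with h1 | ⟨b, h1⟩ <;> rcases hq' with h2 | ⟨c, h2⟩ <;>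
              simp [h1, h2, Rm]
          · have hc : chunk p m q (.inr x) =
                (p x).map .inl ++ [.inr x] ++ (q x).map .inl := by
              have : (m x).isEmpty = false := by
                cases hh : m x with
                | nil => exact absurd hh hmx
                | cons a t => rfl
              simp [chunk, this]
            obtain ⟨k1, k2, k3, k4⟩ := hm x hmx
            rw [hc]
            rcases hp' with h1 | ⟨b, h1⟩ <;> rcases hq' with h2 | ⟨c, h2⟩
            · rw [h1, h2]
              refine ⟨by simp, ?_, ?_⟩
              · intro v hv z hz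
                simp at hv
                rw [← hv] at hz
                cases hz
                exact k2 h1
              · intro v hv z hz
                simp at hv
                rw [← hv] at hz
                cases hz
                exact k4 h2
            · rw [h1, h2]
              refine ⟨?_, ?_, ?_⟩
              · simp only [List.map_nil, List.nil_append, List.map_cons,
                  List.singleton_append, List.isChain_cons_cons, List.IsChain.singleton,
                  and_true]
                right
                intro a _ d hd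
                simp only [fL, Option.mem_def, Option.some.injEq] at hd
                rw [← hd, k3 c (by simp [h2])]
                simp
              · intro v hv z hz
                simp at hv
                rw [← hv] at hz
                cases hz
                exact k2 h1
              · intro v hv z hz
                simp at hv
                rw [← hv] at hz
                cases hz
            · rw [h1, h2]
              refine ⟨?_, ?_, ?_⟩
              · simp only [List.map_nil, List.append_nil, List.map_cons,
                  List.singleton_append, List.isChain_cons_cons, List.IsChain.singleton,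
                  and_true]
                right
                intro a ha d _
                simp only [lL, Option.mem_def, Option.some.injEq] at ha
                rw [← ha, k1 b (by simp [h1])]
                simp
              · intro v hv z hz
                simp at hv
                rw [← hv] at hz
                cases hz
              · intro v hv z hz
                simp at hv
                rw [← hv] at hz
                cases hz
                exact k4 h2
            · rw [h1, h2]
              refine ⟨?_, ?_, ?_⟩
              · simp only [List.map_cons, List.map_nil,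
                  List.cons_append, List.nil_append,
                  List.isChain_cons_cons, List.IsChain.singleton,
                  and_true]
                constructor
                · right
                  intro a ha d _
                  simp only [lL, Option.mem_def, Option.some.injEq] at ha
                  rw [← ha, k1 b (by simp [h1])]
                  simp
                · right
                  intro a _ d hd
                  simp only [fL, Option.mem_def, Option.some.injEq] at hd
                  rw [← hd, k3 c (by simp [h2])]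
                  simp
              · intro v hv z hz
                simp at hv
                rw [← hv] at hz
                cases hz
              · intro v hv z hz
                simp at hv
                rw [← hv] at hz
                cases hz
      obtain ⟨c1, c2, c3⟩ := hchunk
      rw [popP_cons]
      refine ⟨?_, ?_⟩
      · rw [List.isChain_append]
        refine ⟨c1, ih1, ?_⟩
        intro a ha b hb
        have ta := c3 a ha
        have tb := ih2 b hb
        cases a with
        | inl a =>
          cases b with
          | inl b => exact Or.inl ⟨a, b, rfl, rfl⟩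
          | inr y =>
            right
            intro c _ d hd
            rw [tb y rfl d hd]
            simp
        | inr x =>
          right
          intro c hc d _
          rw [ta x rfl c hc]
          simp
      · intro v hv
        cases hc : chunk p m q u with
        | nil => rw [hc, List.nil_append] at hv; exact ih2 v hv
        | cons a t =>
          rw [hc] at c2
          rw [hc, List.cons_append, List.head?_cons] at hv
          exact c2 v (by rw [List.head?_cons]; exact hv)

/-- **Pair compression step.** -/
theorem stepP (w : A → ℕ) (L R : List (A ⊕ X)) (hs : ∃ σ : X → List A, sb σ L = sb σ R)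
    (hd : ∀ p ∈ aps L ++ aps R, p.1 ≠ p.2) :
    ∃ L' R' : List (List A ⊕ X), (∃ τ : X → List (List A), sb τ L' = sb τ R') ∧
      vN L' + vN R' ≤ vN L + vN R ∧
      4 * (cN L' + cN R') ≤ 3 * (cN L + cN R) + 9 * (vN L + vN R) + 2 ∧
      cw (wt w) L' + cw (wt w) R' ≤ (1 + 2 * (vN L + vN R)) * (cw w L + cw w R) ∧
      ∀ n, HasSol (wt w) L' R' n → HasSol w L R n := by
  obtain ⟨σ, hσ, hvis⟩ := visible hs
  obtain ⟨Γ, hΓ⟩ := exists_part (aps L ++ aps R) hd
  choose p m q hu hp hq hm using fun x => split_word Γ (σ x)
  have hback : ∀ μ : X → List A, μ = m →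
      (fun x => p x ++ (if (m x).isEmpty then [] else μ x) ++ q x) = σ := by
    rintro μ rfl
    funext x
    rw [hu x]
    congr 2
    by_cases h : (μ x).isEmpty
    · rw [if_pos h]
      exact (List.isEmpty_iff.1 h).symm
    · rw [if_neg h]
  have hΩ : ∀ x, ∀ a ∈ σ x, w a ≤ cw w L + cw w R := by
    intro x a ha
    have := le_cw w (hvis x a ha)
    rwa [cw_append] at this
  have hone : ∀ (t : List A), t.length ≤ 1 → (∀ a ∈ t, w a ≤ cw w L + cw w R) →
      wt w t ≤ cw w L + cw w R := by
    intro t ht h
    rcases t with _ | ⟨b, _ | ⟨c, t⟩⟩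
    · exact Nat.zero_le _
    · rw [wt_cons, wt_nil, Nat.add_zero]
      exact h b (by simp)
    · simp at ht
  have hpw : ∀ x, wt w (p x) ≤ cw w L + cw w R := fun x =>
    hone _ (hp x) (fun a ha => hΩ x a (by rw [hu x]; simp [ha]))
  have hqw : ∀ x, wt w (q x) ≤ cw w L + cw w R := fun x =>
    hone _ (hq x) (fun a ha => hΩ x a (by rw [hu x]; simp [ha]))
  have hcL := chain_popP hp hq hm L
  have hcR := chain_popP hp hq hm R
  have eL := pcs_correct (popP p m q L) (popP_ne p m q L) hcL.1
  have eR := pcs_correct (popP p m q R) (popP_ne p m q R) hcR.1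
  rw [sb_popP, hback m rfl] at eL eR
  refine ⟨pcs Γ (popP p m q L), pcs Γ (popP p m q R),
    ⟨fun x => pc Γ (m x), by rw [← eL, ← eR, hσ]⟩, ?_, ?_, ?_, ?_⟩
  · rw [vN_pcs, vN_pcs]
    exact Nat.add_le_add (vN_popP p m q L) (vN_popP p m q R)
  · have h1 := cN_pcs Γ (popP p m q L)
    have h2 := cN_pcs Γ (popP p m q R)
    have h3 := cN_popP p m q hp hq L
    have h4 := cN_popP p m q hp hq R
    have h5 := (aps_popP p m q L).countP_le (p := fun p => Γ p.1 && !Γ p.2)
    have h6 := (aps_popP p m q R).countP_le (p := fun p => Γ p.1 && !Γ p.2)
    have h7 := cN_le_aps L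
    have h8 := cN_le_aps R
    rw [List.length_append, List.countP_append] at hΓ
    omega
  · rw [cw_pcs, cw_pcs]
    have h1 := cw_popP w p m q (cw w L + cw w R) hpw hqw L
    have h2 := cw_popP w p m q (cw w L + cw w R) hpw hqw R
    have h3 : (1 + 2 * (vN L + vN R)) * (cw w L + cw w R) =
      cw w L + cw w R + 2 * vN L * (cw w L + cw w R) + 2 * vN R * (cw w L + cw w R) := by
      ring
    omega
  · rintro n ⟨τ, hτ, hn⟩
    refine ⟨fun x => p x ++ (if (m x).isEmpty then [] else (τ x).flatten) ++ q x, ?_, ?_⟩
    · rw [← sb_popP p m q (fun x => (τ x).flatten) L,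
        ← sb_popP p m q (fun x => (τ x).flatten) R,
        ← flatten_pcs Γ τ, ← flatten_pcs Γ τ, hτ]
    · rw [← sb_popP p m q (fun x => (τ x).flatten) L, ← flatten_pcs Γ τ, wt_flatten]
      exact hn

end WO45
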